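import Pool.Agent.Lib.MP_c03ca8_nt.N.Defs

/-! A random subset keeps a regular share of the coincidences. -/

open Finset

namespace Pool.Agent.Lib.MP_c03ca8_nt.N

theorem bern {A B : Finset ℤ} (hB : B ⊆ A) (q : ℝ) :
    ∑ S ∈ A.powerset, (if B ⊆ S then q ^ S.card * (1 - q) ^ (A.card - S.card) else 0) =
      q ^ B.card := by
  classical
  have h := Finset.prod_add (fun _ : ℤ => q) (fun a => if a ∈ B then (0 : ℝ) else 1 - q) A
  have h1 : ∏ a ∈ A, (q + if a ∈ B then (0 : ℝ) else 1 - q) = q ^ B.card := by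
    calc _ = ∏ a ∈ A, if a ∈ B then q else 1 :=
          prod_congr rfl fun a _ => by split_ifs <;> ring
      _ = q ^ B.card := by rw [prod_ite_mem, inter_eq_right.mpr hB, prod_const]
  rw [← h1, h]
  refine sum_congr rfl fun S hS => ?_
  rw [prod_const]
  split_ifs with hBS
  · rw [← card_sdiff_of_subset (mem_powerset.mp hS),
      prod_congr rfl fun a ha => if_neg fun hb => (mem_sdiff.mp ha).2 (hBS hb), prod_const]
  · obtain ⟨b, hb, hbS⟩ := not_subset.mp hBS
    rw [prod_eq_zero (f := fun a => if a ∈ B then (0 : ℝ) else 1 - q)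
      (mem_sdiff.mpr ⟨hB hb, hbS⟩) (if_pos hb), mul_zero]

/-- The weight of a subset. -/
noncomputable def wt (A : Finset ℤ) (q : ℝ) (S : Finset ℤ) : ℝ :=
  q ^ S.card * (1 - q) ^ (A.card - S.card)

/-- The indicator that both points of a coincidence are chosen. -/
noncomputable def ind (S : Finset ℤ) (e : ℤ × ℤ × ℤ) : ℝ :=
  if e.2.1 ∈ S ∧ e.2.2 ∈ S then 1 else 0

theorem av_set {A B : Finset ℤ} (hB : B ⊆ A) (q : ℝ) :
    ∑ S ∈ A.powerset, wt A q S * (if B ⊆ S then 1 else 0) = q ^ B.card := by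
  rw [← bern hB q]
  exact sum_congr rfl fun S _ => by unfold wt; split_ifs <;> simp

theorem av_one (A : Finset ℤ) (q : ℝ) : ∑ S ∈ A.powerset, wt A q S = 1 := by
  simpa using av_set (empty_subset A) q

theorem av_card (A : Finset ℤ) (q : ℝ) :
    ∑ S ∈ A.powerset, wt A q S * S.card = q * A.card := by
  have h : ∀ S ∈ A.powerset, wt A q S * S.card =
      ∑ a ∈ A, wt A q S * (if ({a} : Finset ℤ) ⊆ S then 1 else 0) := by
    intro S hS
    rw [← mul_sum]
    congr 1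
    simp only [singleton_subset_iff, sum_ite_mem, inter_eq_right.mpr (mem_powerset.mp hS)]
    simp
  rw [sum_congr rfl h, sum_comm,
    sum_congr rfl fun a ha => av_set (singleton_subset_iff.mpr ha) q]
  simp [mul_comm]

theorem av_ind {A : Finset ℤ} (q : ℝ) {e : ℤ × ℤ × ℤ} (h1 : e.2.1 ∈ A) (h2 : e.2.2 ∈ A)
    (h : e.2.1 ≠ e.2.2) : ∑ S ∈ A.powerset, wt A q S * ind S e = q ^ 2 := by
  have hB : ({e.2.1, e.2.2} : Finset ℤ) ⊆ A := by simp [insert_subset_iff, h1, h2]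
  rw [← card_pair h, ← av_set hB q]
  exact sum_congr rfl fun S _ => by simp [ind, insert_subset_iff]

theorem av_pair {A : Finset ℤ} {q : ℝ} (hq : 0 ≤ q) {e f : ℤ × ℤ × ℤ} (h1 : e.2.1 ∈ A)
    (h2 : e.2.2 ∈ A) (h : e.2.1 ≠ e.2.2) (k1 : f.2.1 ∈ A) (k2 : f.2.2 ∈ A) (k : f.2.1 ≠ f.2.2) :
    ∑ S ∈ A.powerset, wt A q S * (ind S e * ind S f) ≤
      q ^ 2 * (q ^ 2 + q * (if f.2.1 = e.2.1 ∨ f.2.1 = e.2.2 then 1 else 0) +
        q * (if f.2.2 = e.2.1 ∨ f.2.2 = e.2.2 then 1 else 0) +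
        if (f.2.1 = e.2.1 ∨ f.2.1 = e.2.2) ∧ (f.2.2 = e.2.1 ∨ f.2.2 = e.2.2) then 1 else 0) := by
  have hB : ({f.2.1, f.2.2, e.2.1, e.2.2} : Finset ℤ) ⊆ A := by
    simp [insert_subset_iff, h1, h2, k1, k2]
  have e1 : ∑ S ∈ A.powerset, wt A q S * (ind S e * ind S f) =
      q ^ ({f.2.1, f.2.2, e.2.1, e.2.2} : Finset ℤ).card := by
    rw [← av_set hB q]
    refine sum_congr rfl fun S _ => ?_
    simp only [ind, insert_subset_iff, singleton_subset_iff]
    by_cases a1 : e.2.1 ∈ S <;> by_cases a2 : e.2.2 ∈ S <;> by_cases a3 : f.2.1 ∈ S <;>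
      by_cases a4 : f.2.2 ∈ S <;> simp [a1, a2, a3, a4]
  rw [e1]
  have p2 : 0 ≤ q ^ 2 := by positivity
  have p3 : 0 ≤ q ^ 3 := by positivity
  have p4 : 0 ≤ q ^ 4 := by positivity
  by_cases c1 : f.2.1 = e.2.1 ∨ f.2.1 = e.2.2 <;> by_cases c2 : f.2.2 = e.2.1 ∨ f.2.2 = e.2.2
  · rw [card_insert_of_mem (by simp [c1]), card_insert_of_mem (by simp [c2]), card_pair h]
    simp only [c1, c2, and_self, if_true]
    nlinarith
  · rw [card_insert_of_mem (by simp [c1]), card_insert_of_notMem (by simpa using c2), card_pair h]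
    simp only [c1, c2, and_false, if_true, if_false, Nat.reduceAdd]
    nlinarith
  · rw [card_insert_of_notMem (by simp only [mem_insert, mem_singleton]; tauto),
      card_insert_of_mem (by simp [c2]), card_pair h]
    simp only [c1, c2, false_and, if_true, if_false, Nat.reduceAdd]
    nlinarith
  · rw [card_insert_of_notMem (by simp only [mem_insert, mem_singleton]; tauto),
      card_insert_of_notMem (by simpa using c2), card_pair h]
    simp only [c1, c2, false_and, if_false, Nat.reduceAdd]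
    nlinarith

theorem av_row {A U : Finset ℤ} {Q : Finset (ℤ × ℤ × ℤ)} {σ : ℕ} {Λ q : ℝ} (hQ : Sym A U Q)
    (h1 : ∀ u a, (Q.filter fun e => e.1 = u ∧ e.2.1 = a).card ≤ σ)
    (h2 : ∀ u a, ((Q.filter fun e => e.1 = u ∧ e.2.2 = a).card : ℝ) ≤ Λ) (hq : 0 ≤ q)
    (u a a' : ℤ) :
    ∑ f ∈ Q.filter (fun f => f.1 = u),
      (q ^ 2 + q * (if f.2.1 = a ∨ f.2.1 = a' then 1 else 0) +
        q * (if f.2.2 = a ∨ f.2.2 = a' then 1 else 0) +
        if (f.2.1 = a ∨ f.2.1 = a') ∧ (f.2.2 = a ∨ f.2.2 = a') then 1 else 0) ≤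
      q ^ 2 * σ * A.card + (2 * q * (σ + Λ) + 4) := by
  have b1 : (Q.filter fun f => f.1 = u).card ≤ σ * A.card := by
    refine card_le_mul_card_image_of_maps_to (f := fun f => f.2.1) (fun f hf => ?_) σ fun b _ => ?_
    · exact (hQ f (mem_filter.mp hf).1).2.1
    · rw [filter_filter]
      exact h1 u b
  have b2 : ((Q.filter fun f => f.1 = u).filter fun f => f.2.1 = a ∨ f.2.1 = a').card ≤
      σ + σ := by
    rw [filter_or]
    refine (card_union_le _ _).trans (add_le_add ?_ ?_) <;> rw [filter_filter] <;> exact h1 u _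
  have b3 : (((Q.filter fun f => f.1 = u).filter fun f => f.2.2 = a ∨ f.2.2 = a').card : ℝ) ≤
      Λ + Λ := by
    rw [filter_or]
    refine (Nat.cast_le.mpr (card_union_le _ _)).trans ?_
    rw [Nat.cast_add, filter_filter, filter_filter]
    exact add_le_add (h2 u _) (h2 u _)
  have b4 : ((Q.filter fun f => f.1 = u).filter fun f =>
      (f.2.1 = a ∨ f.2.1 = a') ∧ (f.2.2 = a ∨ f.2.2 = a')).card ≤ 4 := by
    refine (card_le_card (t := {(u, a, a), (u, a, a'), (u, a', a), (u, a', a')}) ?_).trans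
      card_le_four
    rintro ⟨x, y, z⟩ hf
    simp only [mem_filter] at hf
    obtain ⟨⟨-, rfl⟩, rfl | rfl, rfl | rfl⟩ := hf <;> simp
  have c1 : ((Q.filter fun f => f.1 = u).card : ℝ) ≤ σ * A.card := by exact_mod_cast b1
  have c2 := (Nat.cast_le (α := ℝ)).mpr b2
  have c4 := (Nat.cast_le (α := ℝ)).mpr b4
  simp only [sum_add_distrib, ← mul_sum, sum_boole, sum_const, nsmul_eq_mul]
  push_cast at c2 c4
  have d1 := mul_le_mul_of_nonneg_left c1 (sq_nonneg q)
  have d2 := mul_le_mul_of_nonneg_left c2 hq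
  have d3 := mul_le_mul_of_nonneg_left b3 hq
  nlinarith

theorem sample {A U : Finset ℤ} {Q : Finset (ℤ × ℤ × ℤ)} {σ : ℕ} {Λ q D : ℝ} (hQ : Sym A U Q)
    (h1 : ∀ u a, (Q.filter fun e => e.1 = u ∧ e.2.1 = a).card ≤ σ)
    (h2 : ∀ u a, ((Q.filter fun e => e.1 = u ∧ e.2.2 = a).card : ℝ) ≤ Λ)
    (h3 : σ * A.card * U.card ≤ 4 * Q.card) (hq : 0 < q) (hq1 : q ≤ 1)
    (hD : D = q ^ 2 * σ * A.card) (hD2 : 2 * q * (σ + Λ) + 4 ≤ 3 * D) (hU : U.Nonempty) :
    ∃ S ⊆ A, (S.card : ℝ) ≤ 32 * q * A.card ∧ ∃ Q' : Finset (ℤ × ℤ × ℤ), Sym S U Q' ∧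
      D * U.card / 16 ≤ Q'.card - (∑ u ∈ U, (dg Q' u : ℝ) ^ 2) / (8 * D) := by
  classical
  have hΛ : 0 ≤ Λ := (Nat.cast_nonneg _).trans (h2 0 0)
  have hD0 : 0 < D := by
    have : 0 ≤ 2 * q * (σ + Λ) := by positivity
    linarith
  have hm : (0 : ℝ) < A.card := by
    rcases (Nat.cast_nonneg (α := ℝ) A.card).eq_or_lt with h | h
    · rw [hD, ← h] at hD0
      simp at hD0
    · exact h
  have hR : (0 : ℝ) < U.card := by exact_mod_cast hU.card_pos
  set QS : Finset ℤ → Finset (ℤ × ℤ × ℤ) := fun S => Q.filter fun e => e.2.1 ∈ S ∧ e.2.2 ∈ S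
    with hQS
  have hw : ∀ S, 0 ≤ wt A q S := fun S =>
    mul_nonneg (by positivity) (pow_nonneg (by linarith) _)
  have eX : ∀ S, ((QS S).card : ℝ) = ∑ e ∈ Q, ind S e := fun S => by
    simp only [hQS, ind, sum_boole]
  have eD : ∀ S u, (dg (QS S) u : ℝ) = ∑ e ∈ Q.filter (fun e => e.1 = u), ind S e := fun S u => by
    simp only [hQS, dg, ind, sum_boole]
    rw [filter_comm]
  have hfib : ∀ P : Finset (ℤ × ℤ × ℤ), P ⊆ Q → (P.card : ℝ) = ∑ u ∈ U, (dg P u : ℝ) := by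
    intro P hP
    have := card_eq_sum_card_fiberwise (s := P) (t := U) (f := fun e => e.1)
      fun e he => (hQ e (hP he)).1
    exact_mod_cast this
  have EX : ∑ S ∈ A.powerset, wt A q S * (QS S).card = q ^ 2 * Q.card := by
    simp only [eX, mul_sum]
    rw [sum_comm, sum_congr rfl fun e he =>
      av_ind q (hQ e he).2.1 (hQ e he).2.2.1 (hQ e he).2.2.2.1]
    simp [mul_comm]
  have EY : ∑ S ∈ A.powerset, wt A q S * ∑ u ∈ U, (dg (QS S) u : ℝ) ^ 2 ≤
      4 * D * (q ^ 2 * Q.card) := by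
    have e3 : ∀ S u, (dg (QS S) u : ℝ) ^ 2 = ∑ e ∈ Q.filter (fun e => e.1 = u),
        ∑ f ∈ Q.filter (fun e => e.1 = u), ind S e * ind S f := fun S u => by
      rw [eD, sq, sum_mul_sum]
    simp only [e3, mul_sum]
    rw [sum_comm, hfib Q Subset.rfl, mul_sum, mul_sum]
    refine sum_le_sum fun u _ => ?_
    rw [sum_comm]
    calc _ ≤ ∑ e ∈ Q.filter (fun e => e.1 = u), q ^ 2 * (4 * D) := by
          refine sum_le_sum fun e he => ?_
          have he' := hQ e (mem_filter.mp he).1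
          rw [sum_comm]
          refine (sum_le_sum fun f hf => av_pair hq.le he'.2.1 he'.2.2.1 he'.2.2.2.1
            (hQ f (mem_filter.mp hf).1).2.1 (hQ f (mem_filter.mp hf).1).2.2.1
            (hQ f (mem_filter.mp hf).1).2.2.2.1).trans ?_
          rw [← mul_sum]
          refine mul_le_mul_of_nonneg_left ?_ (sq_nonneg q)
          refine (av_row hQ h1 h2 hq.le u e.2.1 e.2.2).trans ?_
          linarith
      _ = _ := by rw [sum_const, nsmul_eq_mul, dg]; ring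
  have h3' : (σ : ℝ) * A.card * U.card ≤ 4 * Q.card := by exact_mod_cast h3
  have hX : D * U.card ≤ 4 * (q ^ 2 * Q.card) := by
    have := mul_le_mul_of_nonneg_left h3' (sq_nonneg q)
    rw [hD]
    linarith
  set μ : ℝ := D * U.card / 16 / (q * A.card) with hμ
  have hμ0 : 0 < μ := by positivity
  have hμ1 : μ * (q * A.card) = D * U.card / 16 := div_mul_cancel₀ _ (by positivity)
  obtain ⟨S, hS, hle⟩ : ∃ S ∈ A.powerset, D * U.card / 16 ≤
      (QS S).card - (∑ u ∈ U, (dg (QS S) u : ℝ) ^ 2) / (8 * D) - μ * S.card := by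
    by_contra hc
    push Not at hc
    obtain ⟨S0, hS0, hpos⟩ : ∃ S ∈ A.powerset, 0 < wt A q S := by
      by_contra h0
      push Not at h0
      have := sum_nonpos h0
      rw [av_one] at this
      linarith
    have hlt := sum_lt_sum (s := A.powerset)
      (fun S hS => mul_le_mul_of_nonneg_left (hc S hS).le (hw S))
      ⟨S0, hS0, mul_lt_mul_of_pos_left (hc S0 hS0) hpos⟩
    have e2 : ∑ S ∈ A.powerset, wt A q S * (((QS S).card : ℝ) -
        (∑ u ∈ U, (dg (QS S) u : ℝ) ^ 2) / (8 * D) - μ * S.card) =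
        ∑ S ∈ A.powerset, wt A q S * (QS S).card -
          (∑ S ∈ A.powerset, wt A q S * ∑ u ∈ U, (dg (QS S) u : ℝ) ^ 2) / (8 * D) -
          μ * ∑ S ∈ A.powerset, wt A q S * S.card := by
      rw [sum_div, mul_sum, ← sum_sub_distrib, ← sum_sub_distrib]
      exact sum_congr rfl fun S _ => by ring
    rw [e2, ← sum_mul, av_one, EX, av_card, hμ1] at hlt
    have : (∑ S ∈ A.powerset, wt A q S * ∑ u ∈ U, (dg (QS S) u : ℝ) ^ 2) / (8 * D) ≤
        q ^ 2 * Q.card / 2 := by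
      rw [div_le_iff₀ (by positivity)]
      linarith
    linarith
  have hup : ((QS S).card : ℝ) - (∑ u ∈ U, (dg (QS S) u : ℝ) ^ 2) / (8 * D) ≤ 2 * D * U.card := by
    rw [hfib (QS S) (filter_subset _ _), sum_div, ← sum_sub_distrib]
    refine (sum_le_card_nsmul U _ (2 * D) fun u _ => ?_).trans (by rw [nsmul_eq_mul]; linarith)
    rw [sub_le_iff_le_add, ← sub_le_iff_le_add', le_div_iff₀ (by positivity)]
    nlinarith [sq_nonneg ((dg (QS S) u : ℝ) - 4 * D)]
  refine ⟨S, mem_powerset.mp hS, ?_, QS S, fun e he => ?_, ?_⟩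
  · refine le_of_mul_le_mul_left ?_ hμ0
    have : 0 < D * U.card := by positivity
    nlinarith
  · obtain ⟨he1, he2⟩ := mem_filter.mp he
    have := hQ e he1
    exact ⟨this.1, he2.1, he2.2, this.2.2.2.1, mem_filter.mpr ⟨this.2.2.2.2, he2.2, he2.1⟩⟩
  · have : 0 ≤ μ * S.card := by positivity
    linarith

end Pool.Agent.Lib.MP_c03ca8_nt.N
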