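import Pool.Agent.Lib.MP_c03ca8_nt.N.Defs
import Pool.Agent.Lib.MP_778b46_nt.Period

/-! The pure sieve of Brun in large dimension. -/

open Finset Real

namespace Pool.Agent.Lib.MP_c03ca8_nt.N

theorem bonfA_zero (g : ℕ → ℝ) (P : Finset ℕ) : es g P 0 = 1 := by simp [es]

theorem bonfA_ins (g : ℕ → ℝ) {P : Finset ℕ} {p : ℕ} (hp : p ∉ P) (i : ℕ) :
    es g (insert p P) (i + 1) = es g P (i + 1) + g p * es g P i := by
  have h1 : ∀ V ∈ P.powersetCard i, p ∉ V := fun V hV h => hp ((mem_powersetCard.1 hV).1 h)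
  rw [es, powersetCard_succ_insert hp, sum_union, sum_image, es, es, mul_sum]
  · exact congrArg _ (sum_congr rfl fun V hV => prod_insert (h1 V hV))
  · intro V hV W hW e
    rw [← erase_insert (h1 V hV), ← erase_insert (h1 W hW), e]
  · refine disjoint_left.2 fun V hV hW => ?_
    obtain ⟨W, -, rfl⟩ := mem_image.1 hW
    exact hp ((mem_powersetCard.1 hV).1 (mem_insert_self _ _))

theorem bonf (g : ℕ → ℝ) (P : Finset ℕ) (hg : ∀ p ∈ P, 0 ≤ g p ∧ g p ≤ 1) (r : ℕ) :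
    0 ≤ (-1) ^ r * (∑ i ∈ range (r + 1), (-1) ^ i * es g P i - ∏ p ∈ P, (1 - g p)) := by
  have h0 : ∀ P : Finset ℕ, (∀ p ∈ P, 0 ≤ g p ∧ g p ≤ 1) →
      0 ≤ (-1) ^ 0 * (∑ i ∈ range (0 + 1), (-1) ^ i * es g P i - ∏ p ∈ P, (1 - g p)) :=
    fun P hg => by
      have := prod_le_one (s := P) (f := fun p => 1 - g p) (fun p hp => sub_nonneg.2 (hg p hp).2)
        fun p hp => sub_le_self _ (hg p hp).1
      simpa [bonfA_zero] using this
  induction P using Finset.induction_on generalizing r with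
  | empty =>
    have : ∀ i, es g ∅ (i + 1) = 0 := fun i => by
      rw [es, powersetCard_eq_empty.2 (by simp), sum_empty]
    simp [sum_range_succ', this, bonfA_zero]
  | insert p P hp ih =>
    rcases r with _ | r
    · exact h0 _ hg
    have h1 := ih (fun q hq => hg q (mem_insert_of_mem hq)) (r + 1)
    have h2 := mul_nonneg (hg p (mem_insert_self _ _)).1
      (ih (fun q hq => hg q (mem_insert_of_mem hq)) r)
    have h3 : ∑ i ∈ range (r + 1 + 1), (-1) ^ i * es g (insert p P) i =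
        ∑ i ∈ range (r + 1 + 1), (-1) ^ i * es g P i -
          g p * ∑ i ∈ range (r + 1), (-1) ^ i * es g P i := by
      rw [sum_range_succ' _ (r + 1), sum_range_succ' _ (r + 1), bonfA_zero, bonfA_zero, mul_sum,
        add_sub_right_comm, ← sum_sub_distrib]
      refine congrArg (· + _) (sum_congr rfl fun i _ => ?_)
      rw [bonfA_ins g hp]
      ring
    rw [h3, prod_insert hp]
    rw [pow_succ] at h1 ⊢
    linarith

theorem es_le (g : ℕ → ℝ) (P : Finset ℕ) (hg : ∀ p ∈ P, 0 ≤ g p) (j : ℕ) :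
    es g P j ≤ exp (exp 1 * ∑ p ∈ P, g p - j) := by
  have e0 := exp_pos 1
  have h1 : es g P j * exp j = ∑ V ∈ P.powersetCard j, ∏ p ∈ V, exp 1 * g p := by
    rw [es, sum_mul]
    refine sum_congr rfl fun V hV => ?_
    rw [prod_mul_distrib, prod_const, (mem_powersetCard.1 hV).2, exp_one_pow, mul_comm]
  have h2 : ∑ V ∈ P.powersetCard j, ∏ p ∈ V, exp 1 * g p ≤
      ∑ V ∈ P.powerset, ∏ p ∈ V, exp 1 * g p :=
    sum_le_sum_of_subset_of_nonneg (fun V hV => mem_powerset.2 (mem_powersetCard.1 hV).1)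
      fun V hV _ => prod_nonneg fun p hp => mul_nonneg e0.le (hg p (mem_powerset.1 hV hp))
  rw [exp_sub, le_div_iff₀ (exp_pos _), h1, mul_sum, exp_sum]
  refine h2.trans ?_
  rw [← prod_one_add]
  exact prod_le_prod (fun p hp => by have := hg p hp; positivity) fun p _ => by
    linarith [add_one_le_exp (exp 1 * g p)]

open Classical in
/-- Indicator of the residue classes removed by the prime `p`. -/
noncomputable def bsInd (T : Finset ℤ) (p : ℕ) (n : ℤ) : ℝ :=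
  if ∃ h ∈ T, (p : ℤ) ∣ n + h then 1 else 0

lemma bs_mem (T : Finset ℤ) (p : ℕ) (n : ℤ) : 0 ≤ bsInd T p n ∧ bsInd T p n ≤ 1 := by
  unfold bsInd
  split_ifs <;> norm_num

lemma bs_per (T : Finset ℤ) (p : ℕ) (s s' : ℤ) (h : s ≡ s' [ZMOD (p : ℕ)]) :
    bsInd T p s = bsInd T p s' := by
  have h1 : ∀ x : ℤ, (p : ℤ) ∣ s + x ↔ (p : ℤ) ∣ s' + x := fun x => by
    rw [← Int.modEq_zero_iff_dvd, ← Int.modEq_zero_iff_dvd]
    exact ⟨fun h2 => (h.add_right x).symm.trans h2, fun h2 => (h.add_right x).trans h2⟩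
  unfold bsInd
  simp only [h1]

lemma bs_sum (T : Finset ℤ) (H : ℕ) (hT : T ⊆ Ico 0 (H : ℤ)) {p : ℕ} (hp : 0 < p) (hH : H ≤ p) :
    ∑ z ∈ range p, bsInd T p z = T.card := by
  classical
  have hp' : (0 : ℤ) < p := by exact_mod_cast hp
  have hH' : (H : ℤ) ≤ p := by exact_mod_cast hH
  have h0 : ∀ h : ℤ, ((((-h) % p).toNat : ℕ) : ℤ) = (-h) % p := fun h =>
    Int.toNat_of_nonneg (Int.emod_nonneg _ hp'.ne')
  have h1 : (range p).filter (fun z : ℕ => ∃ h ∈ T, (p : ℤ) ∣ z + h) =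
      T.image fun h => ((-h) % p).toNat := by
    ext z
    simp only [mem_filter, mem_range, mem_image]
    constructor
    · rintro ⟨hz, h, hh, hd⟩
      refine ⟨h, hh, ?_⟩
      have h2 : (-h) % p = (z : ℤ) % p := by
        refine (Int.modEq_iff_dvd.2 ?_ : -h ≡ z [ZMOD p])
        rwa [sub_neg_eq_add]
      rw [h2, Int.emod_eq_of_lt (by positivity) (by exact_mod_cast hz), Int.toNat_natCast]
    · rintro ⟨h, hh, rfl⟩
      refine ⟨?_, h, hh, ?_⟩
      · have h2 := Int.emod_lt_of_pos (-h) hp'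
        have h3 := h0 h
        omega
      · rw [h0]
        have h2 : -h ≡ (-h) % p [ZMOD p] := (Int.mod_modEq _ _).symm
        have h3 := Int.modEq_iff_dvd.1 h2
        rwa [sub_neg_eq_add] at h3
  have h2 : Set.InjOn (fun h : ℤ => ((-h) % p).toNat) T := by
    intro a ha b hb hab
    have h3 : (-a) % p = (-b) % p := by
      rw [← h0 a, ← h0 b]
      exact congrArg _ hab
    have h4 : (p : ℤ) ∣ -b - -a := Int.modEq_iff_dvd.1 h3
    have ha' := mem_Ico.1 (hT ha)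
    have hb' := mem_Ico.1 (hT hb)
    have h5 := Int.eq_zero_of_abs_lt_dvd h4 (by rw [abs_lt]; constructor <;> omega)
    omega
  unfold bsInd
  rw [sum_boole, h1, card_image_of_injOn h2]

lemma bs_level (T : Finset ℤ) (H : ℕ) (hT : T ⊆ Ico 0 (H : ℤ)) (P : Finset ℕ)
    (hP : ∀ p ∈ P, p.Prime ∧ H ≤ p) (y : ℤ) (N i : ℕ) :
    |∑ n ∈ Ioc y (y + N), es (fun p => bsInd T p n) P i -
      N * es (fun p => (T.card : ℝ) / p) P i| ≤ ((P.card : ℝ) * T.card) ^ i := by
  unfold es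
  rw [sum_comm, mul_sum, ← sum_sub_distrib]
  refine (abs_sum_le_sum_abs _ _).trans ((sum_le_card_nsmul _ _ ((T.card : ℝ) ^ i)
    fun V hV => ?_).trans ?_)
  · obtain ⟨h1, h2⟩ := mem_powersetCard.1 hV
    have h3 := MP_778b46_nt.sum_prod_periodic (bsInd T) (bs_per T) y N V
      fun l hl => (hP l (h1 hl)).1
    have h4 : ∀ l ∈ V, ∑ z ∈ range l, bsInd T l z = T.card := fun l hl =>
      bs_sum T H hT (hP l (h1 hl)).1.pos (hP l (h1 hl)).2
    have h5 : ∀ l ∈ V, ∑ z ∈ range l, |bsInd T l z| = T.card := fun l hl => by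
      rw [← h4 l hl]
      exact sum_congr rfl fun z _ => abs_of_nonneg (bs_mem T l z).1
    have h6 : ∀ l ∈ V, (∑ z ∈ range l, bsInd T l z) / l = (T.card : ℝ) / l := fun l hl => by
      rw [h4 l hl]
    rw [prod_congr rfl h5, prod_const, h2, prod_congr rfl h6] at h3
    exact h3
  · rw [card_powersetCard, nsmul_eq_mul, mul_pow]
    refine mul_le_mul_of_nonneg_right ?_ (by positivity)
    exact_mod_cast Nat.choose_le_pow _ _

lemma bs_main (g : ℕ → ℝ) (P : Finset ℕ) (hg : ∀ p ∈ P, 0 ≤ g p ∧ g p ≤ 1) (r : ℕ) (hr : Even r)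
    (hG : 4 * ∑ p ∈ P, g p ≤ r) :
    ∑ i ∈ range (r + 1), (-1) ^ i * es g P i ≤ 2 * exp (-∑ p ∈ P, g p) := by
  have h1 := bonf g P hg (r + 1)
  rw [sum_range_succ, hr.add_one.neg_one_pow] at h1
  have h2 := es_le g P (fun p hp => (hg p hp).1) (r + 1)
  have h3 : ∏ p ∈ P, (1 - g p) ≤ exp (-∑ p ∈ P, g p) := by
    rw [← sum_neg_distrib, exp_sum]
    exact prod_le_prod (fun p hp => sub_nonneg.2 (hg p hp).2) fun p _ => by
      linarith [add_one_le_exp (-g p)]
  have h4 : 0 ≤ ∑ p ∈ P, g p := sum_nonneg fun p hp => (hg p hp).1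
  have h5 : exp 1 * ∑ p ∈ P, g p ≤ 3 * ∑ p ∈ P, g p :=
    mul_le_mul_of_nonneg_right (by linarith [exp_one_lt_d9]) h4
  have h6 : exp (exp 1 * ∑ p ∈ P, g p - (r + 1 : ℕ)) ≤ exp (-∑ p ∈ P, g p) := by
    refine exp_le_exp.2 ?_
    push_cast
    linarith
  linarith

theorem sieve (T : Finset ℤ) (H : ℕ) (hT : T ⊆ Ico 0 (H : ℤ)) (P : Finset ℕ)
    (hP : ∀ p ∈ P, p.Prime ∧ H ≤ p) (r : ℕ) (hr : Even r)
    (hG : 4 * (T.card * ∑ p ∈ P, (1 : ℝ) / p) ≤ r) (y : ℤ) (N : ℕ) :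
    (((Ioc y (y + N)).filter fun n => ∀ h ∈ T, ∀ p ∈ P, ¬ (p : ℤ) ∣ n + h).card : ℝ) ≤
      2 * N * exp (-(T.card * ∑ p ∈ P, (1 : ℝ) / p)) + (r + 1) * (P.card * T.card + 1) ^ r := by
  classical
  have ht : T.card ≤ H := by simpa using card_le_card hT
  have hg : ∀ p ∈ P, 0 ≤ (T.card : ℝ) / p ∧ (T.card : ℝ) / p ≤ 1 := fun p hp =>
    ⟨by positivity, div_le_one_of_le₀ (by exact_mod_cast ht.trans (hP p hp).2) (by positivity)⟩
  have hs : (T.card : ℝ) * ∑ p ∈ P, (1 : ℝ) / p = ∑ p ∈ P, (T.card : ℝ) / p := by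
    rw [mul_sum]
    exact sum_congr rfl fun p _ => mul_one_div _ _
  rw [hs] at hG ⊢
  have h1 := bs_main _ P hg r hr hG
  have h2 : (((Ioc y (y + N)).filter fun n => ∀ h ∈ T, ∀ p ∈ P, ¬ (p : ℤ) ∣ n + h).card : ℝ) ≤
      ∑ n ∈ Ioc y (y + N), ∑ i ∈ range (r + 1), (-1) ^ i * es (fun p => bsInd T p n) P i := by
    rw [← sum_boole]
    refine sum_le_sum fun n _ => ?_
    have h3 := bonf (fun p => bsInd T p n) P (fun p _ => bs_mem T p n) r
    rw [hr.neg_one_pow, one_mul, sub_nonneg] at h3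
    refine le_trans ?_ h3
    split_ifs with h
    · refine le_of_eq (prod_eq_one fun p hp => ?_).symm
      unfold bsInd
      rw [if_neg fun ⟨x, hx, hd⟩ => h x hx p hp hd, sub_zero]
    · exact prod_nonneg fun p _ => sub_nonneg.2 (bs_mem T p n).2
  have h3 : ∀ i ∈ range (r + 1),
      ∑ n ∈ Ioc y (y + N), (-1) ^ i * es (fun p => bsInd T p n) P i ≤
        N * ((-1) ^ i * es (fun p => (T.card : ℝ) / p) P i) + ((P.card : ℝ) * T.card + 1) ^ r := by
    intro i hi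
    have h4 := abs_le.1 (bs_level T H hT P hP y N i)
    have h0 : (0 : ℝ) ≤ (P.card : ℝ) * T.card := by positivity
    have h5 : ((P.card : ℝ) * T.card) ^ i ≤ ((P.card : ℝ) * T.card + 1) ^ r :=
      (pow_le_pow_left₀ h0 (by linarith) i).trans
        (pow_le_pow_right₀ (by linarith) (Nat.lt_succ_iff.1 (mem_range.1 hi)))
    rw [← mul_sum]
    rcases neg_one_pow_eq_or ℝ i with h | h <;> rw [h] <;> linarith [h4.1, h4.2]
  rw [sum_comm] at h2
  have h4 := h2.trans (sum_le_sum h3)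
  rw [sum_add_distrib, ← mul_sum, sum_const, card_range, nsmul_eq_mul] at h4
  have h5 := mul_le_mul_of_nonneg_left h1 (Nat.cast_nonneg N : (0 : ℝ) ≤ N)
  push_cast at h4
  linarith

end Pool.Agent.Lib.MP_c03ca8_nt.N
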