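import Pool.Agent.Lib.MP_c03ca8_nt.N.Sid

/-! The fingerprint and the shrinking of the container. -/

open Finset

namespace Pool.Agent.Lib.MP_c03ca8_nt.N

theorem kw {A U S : Finset ℤ} (hA : WS A) (hS : S ⊆ A) {θ : ℝ} (hθ : 0 < θ) :
    ∃ F ⊆ A, θ * F.card ≤ U.card ∧ (A \ S) ∩ U ⊆ nxt θ U S F := by
  classical
  have h0 : ∀ f ∈ (A \ S) ∩ U, ∀ x ∈ (A \ S) ∩ U, ¬ Adj S f x := by
    rintro f hf x hx ⟨a, ha, a', ha', hne, e⟩
    have h1 := mem_sdiff.1 (mem_inter.1 hf).1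
    have h2 := mem_sdiff.1 (mem_inter.1 hx).1
    rcases hA f h1.1 x h2.1 a' (hS ha') a (hS ha) e with h | h | h | h
    · exact hne (by omega)
    · exact h1.2 (h ▸ ha')
    · exact h1.2 (h ▸ ha)
    · exact h2.2 (h ▸ ha')
  obtain ⟨F, hF, hmax⟩ := exists_max_image (((A \ S) ∩ U).powerset.filter fun F : Finset ℤ =>
    θ * F.card ≤ (U \ rest U S F).card) card
      ⟨∅, mem_filter.2 ⟨empty_mem_powerset _, by simp⟩⟩
  obtain ⟨h1, h2⟩ := mem_filter.1 hF
  rw [mem_powerset] at h1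
  refine ⟨F, fun f hf => (mem_sdiff.1 (mem_inter.1 (h1 hf)).1).1,
    h2.trans (Nat.cast_le.2 (card_le_card sdiff_subset)), fun x hx => mem_filter.2
      ⟨mem_filter.2 ⟨(mem_inter.1 hx).2, fun ⟨f, hf, e⟩ => h0 f (h1 hf) x hx e⟩, ?_⟩⟩
  by_cases e : x ∈ F
  · have h3 : ((rest U S F).filter fun y => Adj S x y) = ∅ :=
      filter_eq_empty_iff.2 fun y hy a => (mem_filter.1 hy).2 ⟨x, e, a⟩
    rwa [h3, card_empty, Nat.cast_zero]
  by_contra h
  have h3 : (U \ rest U S F).card + ((rest U S F).filter fun y => Adj S x y).card ≤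
      (U \ rest U S (insert x F)).card := by
    rw [← card_union_of_disjoint (disjoint_left.2 fun y a b =>
      (mem_sdiff.1 a).2 (mem_filter.1 b).1)]
    refine card_le_card fun y hy => mem_sdiff.2 ?_
    rcases mem_union.1 hy with a | a
    · refine ⟨(mem_sdiff.1 a).1, fun b => (mem_sdiff.1 a).2 (mem_filter.2 ⟨(mem_sdiff.1 a).1, ?_⟩)⟩
      exact fun ⟨f, hf, c⟩ => (mem_filter.1 b).2 ⟨f, mem_insert_of_mem hf, c⟩
    · exact ⟨(mem_filter.1 (mem_filter.1 a).1).1, fun b =>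
        (mem_filter.1 b).2 ⟨x, mem_insert_self _ _, (mem_filter.1 a).2⟩⟩
  have h4 := hmax (insert x F) (mem_filter.2 ⟨mem_powerset.2 (insert_subset hx h1), by
    rw [card_insert_of_notMem e]
    have h5 := (Nat.cast_le (α := ℝ)).2 h3
    push_cast at h5 ⊢
    linarith [not_lt.1 h]⟩)
  rw [card_insert_of_notMem e] at h4
  omega

open Classical in
theorem kwb_fibre {U S : Finset ℤ} (hS : WS S) {Q : Finset (ℤ × ℤ × ℤ)} (hQ : Sym S U Q)
    (T : Finset ℤ) (u : ℤ) :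
    (Q.filter fun e => e.1 = u ∧ e.1 + e.2.1 - e.2.2 ∈ T).card ≤
      2 * (T.filter fun x' => Adj S u x').card := by
  refine card_le_mul_card_image_of_maps_to (f := fun e => e.1 + e.2.1 - e.2.2) (fun e he => ?_) 2
    fun b _ => ?_
  · obtain ⟨h1, h2, h3⟩ := mem_filter.1 he
    obtain ⟨-, k1, k2, k3, -⟩ := hQ e h1
    exact mem_filter.2 ⟨h3, _, k1, _, k2, k3, by rw [h2]; ring⟩
  · by_cases hb : u = b
    · refine le_trans (le_of_eq (card_eq_zero.2 (eq_empty_of_forall_notMem fun e he => ?_)))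
        (Nat.zero_le _)
      obtain ⟨h1, h4⟩ := mem_filter.1 he
      obtain ⟨h1, h2, -⟩ := mem_filter.1 h1
      exact (hQ e h1).2.2.2.1 (by omega)
    · refine le_trans (card_le_card_of_injOn (fun e => e.2) (fun e he => ?_)
        fun e he e' he' h => ?_) (ws_two hS hb)
      · obtain ⟨h1, h4⟩ := mem_filter.1 (mem_coe.1 he)
        obtain ⟨h1, h2, -⟩ := mem_filter.1 h1
        obtain ⟨-, k1, k2, -⟩ := hQ e h1
        exact mem_coe.2 (mem_filter.2 ⟨mem_product.2 ⟨k1, k2⟩, by dsimp only; omega⟩)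
      · exact Prod.ext ((mem_filter.1 (mem_filter.1 (mem_coe.1 he)).1).2.1.trans
          (mem_filter.1 (mem_filter.1 (mem_coe.1 he')).1).2.1.symm) h

theorem kwb_split {U S : Finset ℤ} {Q : Finset (ℤ × ℤ × ℤ)} (hQ : Sym S U Q) (W : Finset ℤ) :
    Q.card ≤ ∑ u ∈ W, (Q.filter fun e => e.1 = u ∧ e.1 + e.2.1 - e.2.2 ∈ W).card +
      2 * ∑ u ∈ U \ W, dg Q u := by
  have h1 : (Q.filter fun e => e.1 ∉ W).card ≤ ∑ u ∈ U \ W, dg Q u := by
    rw [card_eq_sum_card_fiberwise (f := fun e => e.1) (t := U \ W) fun e he =>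
      mem_coe.2 (mem_sdiff.2 ⟨(hQ e (mem_filter.1 (mem_coe.1 he)).1).1,
        (mem_filter.1 (mem_coe.1 he)).2⟩)]
    exact sum_le_sum fun u _ => card_le_card (filter_subset_filter _ (filter_subset _ _))
  have h2 : (Q.filter fun e => e.1 + e.2.1 - e.2.2 ∉ W).card ≤
      (Q.filter fun e => e.1 ∉ W).card := by
    refine card_le_card_of_injOn (fun e => (e.1 + e.2.1 - e.2.2, e.2.2, e.2.1)) (fun e he => ?_)
      fun e _ e' _ h => ?_
    · obtain ⟨k1, k2⟩ := mem_filter.1 (mem_coe.1 he)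
      exact mem_coe.2 (mem_filter.2 ⟨(hQ e k1).2.2.2.2, k2⟩)
    · simp only [Prod.mk.injEq] at h
      exact Prod.ext (by omega) (Prod.ext h.2.2 h.2.1)
  have h3 : (Q.filter fun e => e.1 ∈ W ∧ e.1 + e.2.1 - e.2.2 ∈ W).card ≤
      ∑ u ∈ W, (Q.filter fun e => e.1 = u ∧ e.1 + e.2.1 - e.2.2 ∈ W).card := by
    rw [card_eq_sum_card_fiberwise (f := fun e => e.1) (t := W) fun e he =>
      mem_coe.2 (mem_filter.1 (mem_coe.1 he)).2.1]
    refine sum_le_sum fun u _ => card_le_card fun e he => ?_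
    obtain ⟨k1, k2⟩ := mem_filter.1 he
    exact mem_filter.2 ⟨(mem_filter.1 k1).1, k2, (mem_filter.1 k1).2.2⟩
  have h4 : Q ⊆ (Q.filter fun e => e.1 ∈ W ∧ e.1 + e.2.1 - e.2.2 ∈ W) ∪
      ((Q.filter fun e => e.1 ∉ W) ∪ Q.filter fun e => e.1 + e.2.1 - e.2.2 ∉ W) := fun e he => by
    simp only [mem_union, mem_filter]
    tauto
  have h5 := (card_le_card h4).trans ((card_union_le _ _).trans
    (Nat.add_le_add_left (card_union_le _ _) _))
  omega

theorem small {U S : Finset ℤ} (hS : WS S) {Q : Finset (ℤ × ℤ × ℤ)} (hQ : Sym S U Q) {D : ℝ}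
    (hD : 0 < D) (h : D * U.card / 16 ≤ Q.card - (∑ u ∈ U, (dg Q u : ℝ) ^ 2) / (8 * D))
    (F : Finset ℤ) : 256 * (nxt (D / 64) U S F).card ≤ 255 * U.card := by
  classical
  set W := nxt (D / 64) U S F with hW
  have hWU : W ⊆ U := nxt_subset _ _ _ _
  have h1 : ∀ u ∈ W, ((Q.filter fun e => e.1 = u ∧ e.1 + e.2.1 - e.2.2 ∈ W).card : ℝ) ≤
      D / 32 := fun u hu => by
    have k1 := kwb_fibre hS hQ W u
    have k2 : (W.filter fun x' => Adj S u x').card ≤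
        ((rest U S F).filter fun x' => Adj S u x').card :=
      card_le_card (filter_subset_filter _ (filter_subset _ _))
    have k3 := (mem_filter.1 hu).2
    have k4 : ((Q.filter fun e => e.1 = u ∧ e.1 + e.2.1 - e.2.2 ∈ W).card : ℝ) ≤
        2 * (((rest U S F).filter fun x' => Adj S u x').card : ℝ) := by
      exact_mod_cast k1.trans (Nat.mul_le_mul_left 2 k2)
    linarith
  have h2 : (Q.card : ℝ) ≤
      ∑ u ∈ W, ((Q.filter fun e => e.1 = u ∧ e.1 + e.2.1 - e.2.2 ∈ W).card : ℝ) +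
        2 * ∑ u ∈ U \ W, (dg Q u : ℝ) := by exact_mod_cast kwb_split hQ W
  have h3 := sum_le_card_nsmul _ _ _ h1
  have h4 : 2 * ∑ u ∈ U \ W, (dg Q u : ℝ) ≤
      (∑ u ∈ U \ W, (dg Q u : ℝ) ^ 2) / (8 * D) + (U \ W).card * (8 * D) := by
    rw [mul_sum, sum_div, ← nsmul_eq_mul, ← sum_const, ← sum_add_distrib]
    refine sum_le_sum fun u _ => ?_
    rw [← sub_le_iff_le_add, le_div_iff₀ (by positivity)]
    nlinarith [sq_nonneg ((dg Q u : ℝ) - 8 * D)]
  have h5 : (∑ u ∈ U \ W, (dg Q u : ℝ) ^ 2) / (8 * D) ≤ (∑ u ∈ U, (dg Q u : ℝ) ^ 2) / (8 * D) :=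
    div_le_div_of_nonneg_right (sum_le_sum_of_subset_of_nonneg sdiff_subset
      fun _ _ _ => by positivity) (by positivity)
  have h6 : ((U \ W).card : ℝ) + W.card = U.card := by
    exact_mod_cast card_sdiff_add_card_eq_card hWU
  have h7 : (0 : ℝ) ≤ (U \ W).card := Nat.cast_nonneg _
  rw [nsmul_eq_mul] at h3
  have h8 : D * (256 * (W.card : ℝ)) ≤ D * (255 * U.card) := by nlinarith
  exact_mod_cast le_of_mul_le_mul_left h8 hD

end Pool.Agent.Lib.MP_c03ca8_nt.N
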