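import Pool.Agent.Lib.MP_c03ca8_nt.N.Rel
import Pool.Agent.Lib.MP_c03ca8_nt.N.Avg
import Pool.Agent.Lib.MP_c03ca8_nt.N.Kw

/-! Containers for weak Sidon sets. -/

open Finset

namespace Pool.Agent.Lib.MP_c03ca8_nt.N

theorem phase {s k : ℕ} (hk : 32 ≤ k) (hks : k ≤ s) {A U : Finset ℤ} (hA : WS A)
    (hAH : A ⊆ Ico 0 ((s ^ 3 : ℕ) : ℤ)) (hm : A.card = k * s)
    (hU : U ⊆ Ico 0 ((s ^ 3 : ℕ) : ℤ)) (hR : 32 * s ^ 2 ≤ k * U.card) :
    ∃ S ⊆ A, ∃ F ⊆ A, S.card ≤ 512 * s ∧ F.card ≤ 512 * s ∧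
      (A \ S) ∩ U ⊆ nxt (th s k U) U S F ∧ 256 * (nxt (th s k U) U S F).card ≤ 255 * U.card := by
  obtain ⟨σ, hσ⟩ : ∃ σ, σ = k * U.card / (4 * s ^ 2) := ⟨_, rfl⟩
  have hs1 : 0 < s := by omega
  have hs0 : 0 < 4 * s ^ 2 := by positivity
  have a1 : 4 * s ^ 2 * σ ≤ k * U.card := hσ ▸ Nat.mul_div_le _ _
  have a2 : k * U.card < 4 * s ^ 2 * (σ + 1) := hσ ▸ Nat.lt_mul_div_succ _ hs0
  have a3 : 8 ≤ σ := hσ ▸ (Nat.le_div_iff_mul_le hs0).2 (by omega)
  have hH : 4 * s ^ 3 * σ ≤ A.card * U.card := by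
    rw [hm]
    calc 4 * s ^ 3 * σ = s * (4 * s ^ 2 * σ) := by ring
      _ ≤ s * (k * U.card) := Nat.mul_le_mul_left _ a1
      _ = _ := by ring
  have hUne : U.Nonempty := by
    rw [← card_pos, Nat.pos_iff_ne_zero]
    intro e
    rw [e] at hR
    omega
  have b0 : (32 : ℝ) ≤ k := by exact_mod_cast hk
  have b1 : (k : ℝ) ≤ s := by exact_mod_cast hks
  have b2 : (k : ℝ) * U.card < 4 * s ^ 2 * (σ + 1) := by exact_mod_cast a2
  have b3 : (8 : ℝ) ≤ σ := by exact_mod_cast a3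
  have b4 : (A.card : ℝ) = k * s := by exact_mod_cast hm
  have hk0 : (0 : ℝ) < k := by linarith
  have hs : (0 : ℝ) < s := by linarith
  have hσ0 : (0 : ℝ) < σ := by linarith
  have hR0 : (0 : ℝ) ≤ U.card := Nat.cast_nonneg _
  have b5 : (k : ℝ) * U.card ≤ 8 * s ^ 2 * σ := by nlinarith [sq_nonneg (s : ℝ)]
  have hΛ : 4 * (U.card : ℝ) ≤ ((σ : ℝ) * s / 2) ^ 2 := by
    have h1 : 32 * (U.card : ℝ) ≤ k * U.card := mul_le_mul_of_nonneg_right b0 hR0
    have h2 : 8 * ((s : ℝ) ^ 2 * σ) ≤ σ * (s ^ 2 * σ) :=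
      mul_le_mul_of_nonneg_right b3 (by positivity)
    nlinarith
  have hD0 : 0 < (σ : ℝ) * s / k := by positivity
  obtain ⟨Q, q1, q2, q3, q4⟩ := edges hA hAH hU a3 hH (by positivity) hΛ
  obtain ⟨S, hS, s1, Q', s2, s3⟩ := sample (q := 1 / k) (D := (σ : ℝ) * s / k) q1 q2 q3 q4
    (by positivity) ((div_le_one hk0).2 (by linarith)) (by rw [b4]; field_simp) (by
      have h1 : 8 * (s : ℝ) ≤ σ * s := mul_le_mul_of_nonneg_right b3 hs.le
      have h2 : (σ : ℝ) * 32 ≤ σ * s := mul_le_mul_of_nonneg_left (b0.trans b1) hσ0.le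
      have e1 : 2 * (1 / (k : ℝ)) * (σ + σ * s / 2) + 4 = (2 * σ + σ * s + 4 * k) / k := by
        field_simp
      rw [e1, ← mul_div_assoc]
      exact div_le_div_of_nonneg_right (by linarith) hk0.le) hUne
  have hth : th s k U = (σ : ℝ) * s / k / 64 := by rw [th, hσ]
  obtain ⟨F, hF, f1, f2⟩ := kw (U := U) hA hS (θ := (σ : ℝ) * s / k / 64) (by positivity)
  rw [hth]
  refine ⟨S, hS, F, hF, ?_, ?_, f2, small (hA.mono hS) s2 hD0 s3 F⟩
  · have e1 : 32 * (1 / (k : ℝ)) * A.card = 32 * s := by rw [b4]; field_simp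
    have h1 : (S.card : ℝ) ≤ 512 * s := by linarith
    exact_mod_cast h1
  · have e1 : (σ : ℝ) * s / k / 64 * F.card = σ * s * F.card / (64 * k) := by field_simp
    rw [e1, div_le_iff₀ (by positivity)] at f1
    have h1 : (σ : ℝ) * s * F.card ≤ σ * s * (512 * s) := by nlinarith
    have h2 : (F.card : ℝ) ≤ 512 * s := le_of_mul_le_mul_left h1 (by positivity)
    exact_mod_cast h2

theorem card_small (Ω : Finset ℤ) (g : ℕ) :
    (Ω.powerset.filter fun S => S.card ≤ g).card ≤ (Ω.card + 1) ^ g := by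
  induction g with
  | zero =>
    have h : (Ω.powerset.filter fun S => S.card ≤ 0) ⊆ {∅} := by
      intro S hS
      rw [mem_filter] at hS
      rw [mem_singleton, ← card_eq_zero]
      omega
    simpa using card_le_card h
  | succ g ih =>
    have h : (Ω.powerset.filter fun S => S.card ≤ g + 1) ⊆
        insert ∅ ((Ω ×ˢ (Ω.powerset.filter fun S => S.card ≤ g)).image
          fun e : ℤ × Finset ℤ => insert e.1 e.2) := by
      intro S hS
      rw [mem_filter, mem_powerset] at hS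
      rcases S.eq_empty_or_nonempty with h0 | ⟨x, hx⟩
      · rw [h0]
        exact mem_insert_self _ _
      · refine mem_insert_of_mem (mem_image.2 ⟨(x, S.erase x), ?_, insert_erase hx⟩)
        refine mem_product.2 ⟨hS.1 hx, mem_filter.2 ⟨mem_powerset.2 ?_, ?_⟩⟩
        · exact (erase_subset _ _).trans hS.1
        · have := card_erase_of_mem hx
          have := hS.2
          dsimp only
          omega
    have h1 := (card_le_card h).trans (card_insert_le _ _)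
    have h2 := card_image_le (s := Ω ×ˢ (Ω.powerset.filter fun S => S.card ≤ g))
      (f := fun e : ℤ × Finset ℤ => insert e.1 e.2)
    rw [card_product] at h2
    have h3 := Nat.mul_le_mul_left Ω.card ih
    have h4 : 1 ≤ (Ω.card + 1) ^ g := Nat.one_le_pow _ _ (Nat.succ_pos _)
    calc _ ≤ Ω.card * (Ω.card + 1) ^ g + (Ω.card + 1) ^ g := by omega
      _ = (Ω.card + 1) ^ (g + 1) := by ring

theorem contB_ind {s k : ℕ} (hk : 32 ≤ k) (hks : k ≤ s) (j : ℕ) :
    ∃ C : Finset (Finset ℤ), C.card ≤ (s ^ 3 + 1) ^ (1025 * s * j) ∧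
      (∀ U ∈ C, U ⊆ Ico 0 ((s ^ 3 : ℕ) : ℤ)) ∧
      ∀ A ⊆ Ico 0 ((s ^ 3 : ℕ) : ℤ), WS A → A.card = k * s →
        ∃ U ∈ C, k * s ≤ (A ∩ U).card + 512 * s * j ∧
          (k * U.card < 32 * s ^ 2 ∨ 256 ^ j * U.card ≤ 255 ^ j * s ^ 3) := by
  have hΩ : (Ico (0 : ℤ) ((s ^ 3 : ℕ) : ℤ)).card = s ^ 3 := by
    rw [Int.card_Ico, sub_zero, Int.toNat_natCast]
  induction j with
  | zero =>
    refine ⟨{Ico 0 ((s ^ 3 : ℕ) : ℤ)}, by simp, ?_, ?_⟩
    · intro U hU
      rw [mem_singleton.1 hU]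
    · intro A hA _ hm
      refine ⟨_, mem_singleton_self _, ?_, Or.inr ?_⟩
      · rw [inter_eq_left.2 hA, hm]
        omega
      · rw [hΩ]
        simp
  | succ j ih =>
    obtain ⟨C, hC, hCΩ, hCA⟩ := ih
    obtain ⟨M, hM⟩ : ∃ M, M = (Ico (0 : ℤ) ((s ^ 3 : ℕ) : ℤ)).powerset.filter
      fun S => S.card ≤ 512 * s := ⟨_, rfl⟩
    have hMc : M.card ≤ (s ^ 3 + 1) ^ (512 * s) := by
      have := card_small (Ico (0 : ℤ) ((s ^ 3 : ℕ) : ℤ)) (512 * s)
      rwa [hΩ, ← hM] at this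
    refine ⟨C ∪ (C ×ˢ M ×ˢ M).image fun e : Finset ℤ × Finset ℤ × Finset ℤ =>
      nxt (th s k e.1) e.1 e.2.1 e.2.2, ?_, ?_, ?_⟩
    · have h1 := card_image_le (s := C ×ˢ M ×ˢ M)
        (f := fun e : Finset ℤ × Finset ℤ × Finset ℤ => nxt (th s k e.1) e.1 e.2.1 e.2.2)
      rw [card_product, card_product] at h1
      obtain ⟨B, hB⟩ : ∃ B, B = (s ^ 3 + 1) ^ (512 * s) := ⟨_, rfl⟩
      have hs : 1 ≤ s := by omega
      have h2 : 2 ≤ (s ^ 3 + 1) ^ s := by
        have h3 : 1 ≤ s ^ 3 := Nat.one_le_pow _ _ hs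
        calc 2 ≤ s ^ 3 + 1 := by omega
          _ ≤ (s ^ 3 + 1) ^ s := Nat.le_self_pow (by omega) _
      have h4 : 1 ≤ B * B := by
        rw [hB]
        exact Nat.succ_le_of_lt (by positivity)
      have h5 : M.card * M.card ≤ B * B := by
        rw [hB]
        exact Nat.mul_le_mul hMc hMc
      have h6 : (s ^ 3 + 1) ^ (1025 * s * (j + 1)) =
          (s ^ 3 + 1) ^ (1025 * s * j) * (B * B * (s ^ 3 + 1) ^ s) := by
        rw [hB, ← pow_add, ← pow_add, ← pow_add]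
        congr 1
        ring
      have h7 : 1 + M.card * M.card ≤ B * B * (s ^ 3 + 1) ^ s := by
        have := Nat.mul_le_mul_left (B * B) h2
        omega
      calc _ ≤ C.card + C.card * (M.card * M.card) :=
            (card_union_le _ _).trans (Nat.add_le_add_left h1 _)
        _ = C.card * (1 + M.card * M.card) := by ring
        _ ≤ _ := by
            rw [h6]
            exact Nat.mul_le_mul hC h7
    · intro U hU
      rcases mem_union.1 hU with hU | hU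
      · exact hCΩ U hU
      · obtain ⟨e, he, rfl⟩ := mem_image.1 hU
        exact (nxt_subset _ _ _ _).trans (hCΩ _ (mem_product.1 he).1)
    · intro A hA hW hm
      obtain ⟨U, hU, h1, h2⟩ := hCA A hA hW hm
      have h0 : 512 * s * (j + 1) = 512 * s * j + 512 * s := by ring
      by_cases hR : k * U.card < 32 * s ^ 2
      · exact ⟨U, mem_union_left _ hU, by omega, Or.inl hR⟩
      · obtain ⟨S, hS, F, hF, hSc, hFc, h3, h4⟩ :=
          phase hk hks hW hA hm (hCΩ U hU) (not_lt.1 hR)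
        have hSM : S ∈ M := by
          rw [hM]
          exact mem_filter.2 ⟨mem_powerset.2 (hS.trans hA), hSc⟩
        have hFM : F ∈ M := by
          rw [hM]
          exact mem_filter.2 ⟨mem_powerset.2 (hF.trans hA), hFc⟩
        refine ⟨nxt (th s k U) U S F, mem_union_right _ (mem_image.2 ⟨(U, S, F), ?_, rfl⟩), ?_,
          Or.inr ?_⟩
        · exact mem_product.2 ⟨hU, mem_product.2 ⟨hSM, hFM⟩⟩
        · have h5 : A ∩ U ⊆ A ∩ nxt (th s k U) U S F ∪ S := by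
            intro x hx
            by_cases hxS : x ∈ S
            · exact mem_union_right _ hxS
            · rw [mem_inter] at hx
              exact mem_union_left _ (mem_inter.2
                ⟨hx.1, h3 (mem_inter.2 ⟨mem_sdiff.2 ⟨hx.1, hxS⟩, hx.2⟩)⟩)
          have h6 := (card_le_card h5).trans (card_union_le _ _)
          omega
        · have h5 := h2.resolve_left hR
          calc 256 ^ (j + 1) * (nxt (th s k U) U S F).card
              = 256 ^ j * (256 * (nxt (th s k U) U S F).card) := by ring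
            _ ≤ 256 ^ j * (255 * U.card) := Nat.mul_le_mul_left _ h4
            _ = 255 * (256 ^ j * U.card) := by ring
            _ ≤ 255 * (255 ^ j * s ^ 3) := Nat.mul_le_mul_left _ h5
            _ = 255 ^ (j + 1) * s ^ 3 := by ring

theorem cont {s k J : ℕ} (hk : 32 ≤ k) (hks : k ≤ s) (hJ : 255 ^ J * s ^ 3 ≤ 256 ^ J) :
    ∃ C : Finset (Finset ℤ), C.card ≤ (s ^ 3 + 1) ^ (1025 * s * J) ∧
      (∀ U ∈ C, U ⊆ Ico 0 ((s ^ 3 : ℕ) : ℤ) ∧ k * U.card ≤ 32 * s ^ 2) ∧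
      ∀ A ⊆ Ico 0 ((s ^ 3 : ℕ) : ℤ), WS A → A.card = k * s →
        ∃ U ∈ C, k * s ≤ (A ∩ U).card + 512 * s * J := by
  obtain ⟨C, hC, hCΩ, hCA⟩ := contB_ind hk hks J
  refine ⟨C.filter fun U => k * U.card ≤ 32 * s ^ 2, (card_filter_le _ _).trans hC, ?_, ?_⟩
  · intro U hU
    rw [mem_filter] at hU
    exact ⟨hCΩ U hU.1, hU.2⟩
  · intro A hA hW hm
    obtain ⟨U, hU, h1, h2⟩ := hCA A hA hW hm
    refine ⟨U, mem_filter.2 ⟨hU, ?_⟩, h1⟩
    rcases h2 with h2 | h2
    · exact h2.le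
    · have h3 : 256 ^ J * U.card ≤ 256 ^ J * 1 := by
        rw [mul_one]
        exact h2.trans hJ
      have h4 : U.card ≤ 1 := Nat.le_of_mul_le_mul_left h3 (by positivity)
      have h5 : s ≤ s ^ 2 := Nat.le_self_pow (by omega) _
      have h6 := Nat.mul_le_mul_left k h4
      omega

end Pool.Agent.Lib.MP_c03ca8_nt.N
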