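import Mathlib

/-! Narrow parallelograms: definitions for the container step. -/

open Finset

namespace Pool.Agent.Lib.MP_c03ca8_nt.N

/-- No four distinct elements with `a + d = b + c`. -/
def WS (A : Finset ℤ) : Prop :=
  ∀ a ∈ A, ∀ b ∈ A, ∀ c ∈ A, ∀ d ∈ A, a + d = b + c → a = b ∨ a = c ∨ a = d ∨ b = c

/-- `x` and `x'` differ by a difference of two distinct elements of `S`. -/
def Adj (S : Finset ℤ) (x x' : ℤ) : Prop := ∃ a ∈ S, ∃ a' ∈ S, a ≠ a' ∧ x + a = x' + a'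

open Classical in
/-- The points of `U` that are not adjacent to a point of `F`. -/
noncomputable def rest (U S F : Finset ℤ) : Finset ℤ := U.filter fun x => ¬ ∃ f ∈ F, Adj S f x

open Classical in
/-- The next container. -/
noncomputable def nxt (θ : ℝ) (U S F : Finset ℤ) : Finset ℤ :=
  (rest U S F).filter fun x => (((rest U S F).filter fun x' => Adj S x x').card : ℝ) < θ

/-- A symmetric family of coincidences `u + a = u' + a'`, coded by `(u, a, a')`. -/
def Sym (A U : Finset ℤ) (Q : Finset (ℤ × ℤ × ℤ)) : Prop :=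
  ∀ e ∈ Q, e.1 ∈ U ∧ e.2.1 ∈ A ∧ e.2.2 ∈ A ∧ e.2.1 ≠ e.2.2 ∧
    (e.1 + e.2.1 - e.2.2, e.2.2, e.2.1) ∈ Q

/-- The number of coincidences at `u`. -/
def dg (Q : Finset (ℤ × ℤ × ℤ)) (u : ℤ) : ℕ := (Q.filter fun e => e.1 = u).card

/-- The threshold used in one step. -/
noncomputable def th (s k : ℕ) (U : Finset ℤ) : ℝ :=
  ((k * U.card / (4 * s ^ 2) : ℕ) : ℝ) * s / k / 64

/-- Elementary symmetric sums. -/
noncomputable def es (g : ℕ → ℝ) (P : Finset ℕ) (i : ℕ) : ℝ :=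
  ∑ V ∈ P.powersetCard i, ∏ p ∈ V, g p

theorem WS.mono {A B : Finset ℤ} (h : WS A) (hB : B ⊆ A) : WS B :=
  fun a ha b hb c hc d hd => h a (hB ha) b (hB hb) c (hB hc) d (hB hd)

theorem nxt_subset (θ : ℝ) (U S F : Finset ℤ) : nxt θ U S F ⊆ U := by
  classical
  exact (filter_subset _ _).trans (filter_subset _ _)

end Pool.Agent.Lib.MP_c03ca8_nt.N
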