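import Pool.Agent.Lib.MP_c03ca8_nt.N.Union

/-! Choice of the parameters. -/

open Finset Real

namespace Pool.Agent.Lib.MP_c03ca8_nt.N

theorem params (C κ : ℝ) (hκ : 0 < κ) : ∃ N0 : ℕ, ∀ n : ℕ, N0 ≤ n →
    16 ≤ log n ∧ C * log (log n) ≤ log n ^ κ := by
  have h1 : ∀ᶠ x : ℝ in Filter.atTop, 16 ≤ x ∧ C * log x ≤ x ^ κ := by
    have h2 := ((isLittleO_log_rpow_atTop hκ).const_mul_left C).bound (c := 1) (by norm_num)
    filter_upwards [Filter.eventually_ge_atTop 16, h2] with x a b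
    refine ⟨a, ?_⟩
    rw [Real.norm_eq_abs, Real.norm_eq_abs,
      abs_of_nonneg (rpow_nonneg (by linarith) _ : 0 ≤ x ^ κ)] at b
    have := le_abs_self (C * log x)
    linarith
  exact Filter.eventually_atTop.1
    ((tendsto_log_atTop.comp tendsto_natCast_atTop_atTop).eventually h1)

theorem floor_w {C L W : ℝ} (hC : 1 ≤ C) (hL : 16 ≤ L) (h : (C + 2049) * log L ≤ W) :
    2048 ≤ ⌊W⌋₊ ∧ C * log L ≤ ⌊W⌋₊ ∧ 2048 ≤ W := by
  have h1 : 1 ≤ log L := by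
    rw [le_log_iff_exp_le (by linarith)]
    linarith [exp_one_lt_d9]
  have h2 := Nat.lt_floor_add_one W
  have h3 : 0 ≤ C * log L := by positivity
  exact ⟨Nat.le_floor (by push_cast; nlinarith), by nlinarith, by nlinarith⟩

theorem fin1 : ∃ C : ℝ, 1 ≤ C ∧ ∀ (n : ℕ) (W : ℝ), 16 ≤ log n → C * log (log n) ≤ W →
    W ^ 30 ≤ log n → ∀ A : Finset ℕ, (∀ p ∈ A, p.Prime ∧ n ^ 5 < p ∧ p < (n + 1) ^ 5) →
      (n : ℝ) ^ 4 / (W * log n) ≤ A.card →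
      ∃ p a b : ℕ, 0 < a ∧ a < b ∧ (b : ℝ) ≤ log n ^ (3 / 2 : ℝ) * W ^ 15 ∧
        p ∈ A ∧ p + a ∈ A ∧ p + b ∈ A ∧ p + a + b ∈ A := by
  obtain ⟨C, hC1, hC⟩ := core1
  refine ⟨C + 2049, by linarith, fun n W h16 hW hW30 A hA hcard => ?_⟩
  obtain ⟨hw, hCw, hW0⟩ := floor_w hC1 h16 hW
  have hn0 : 0 < n := Nat.pos_of_ne_zero fun h => by
    rw [h, Nat.cast_zero, log_zero] at h16
    norm_num at h16
  have hn1 : (1 : ℝ) ≤ n := by exact_mod_cast hn0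
  have hexp : exp (log n) = n := exp_log (by linarith)
  have hLn : log n ≤ n := (log_le_sub_one_of_pos (by linarith)).trans (by linarith)
  generalize log (n : ℝ) = L at *
  have hL0 : 0 < L := by linarith
  have hw1 : (⌊W⌋₊ : ℝ) ≤ W := Nat.floor_le (by linarith)
  have hw2 : W < (⌊W⌋₊ : ℝ) + 1 := Nat.lt_floor_add_one _
  have hv1 : (⌊√L⌋₊ : ℝ) ≤ √L := Nat.floor_le (by positivity)
  have hv2 : √L < (⌊√L⌋₊ : ℝ) + 1 := Nat.lt_floor_add_one _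
  have hw15 : ((⌊W⌋₊ : ℕ) : ℝ) ^ 15 ≤ W ^ 15 := pow_le_pow_left₀ (by positivity) hw1 15
  have hwv : ⌊W⌋₊ ^ 15 ≤ ⌊√L⌋₊ := Nat.le_floor (by
    push_cast
    exact hw15.trans (le_sqrt_of_sq_le (by rw [← pow_mul]; exact hW30)))
  generalize ⌊W⌋₊ = w at *
  generalize ⌊√L⌋₊ = v at *
  have hw0 : (2048 : ℝ) ≤ w := by exact_mod_cast hw
  have hv0 : (1 : ℝ) ≤ v := by
    exact_mod_cast (Nat.one_le_pow 15 w (by omega)).trans hwv
  have hs : √L * √L = L := mul_self_sqrt hL0.le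
  have hvL : (v : ℝ) ^ 2 ≤ L := by nlinarith
  have hLv : L ≤ 4 * (v : ℝ) ^ 2 := by nlinarith [sqrt_nonneg L]
  have hH : (((v * w ^ 5) ^ 3 : ℕ) : ℝ) = (v : ℝ) ^ 3 * (w : ℝ) ^ 15 := by
    push_cast
    ring
  have hH1 : (((v * w ^ 5) ^ 3 : ℕ) : ℝ) ≤ L ^ (3 / 2 : ℝ) * W ^ 15 := by
    have h3 : (v : ℝ) ^ 3 ≤ L ^ (3 / 2 : ℝ) := by
      refine (pow_le_pow_left₀ (by positivity) hv1 3).trans (le_of_eq ?_)
      rw [sqrt_eq_rpow, ← rpow_natCast, ← rpow_mul hL0.le]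
      norm_num
    rw [hH]
    exact mul_le_mul h3 hw15 (by positivity) (by positivity)
  have hH2 : (((v * w ^ 5) ^ 3 : ℕ) : ℝ) ≤ (n : ℝ) ^ 4 := by
    have h1 : (w : ℝ) ^ 15 ≤ v := by exact_mod_cast hwv
    calc _ ≤ (v : ℝ) ^ 3 * v := by rw [hH]; gcongr
      _ = ((v : ℝ) ^ 2) ^ 2 := by ring
      _ ≤ (n : ℝ) ^ 2 := pow_le_pow_left₀ (by positivity) (hvL.trans hLn) 2
      _ ≤ _ := pow_le_pow_right₀ hn1 (by norm_num)
  have p3 : (n : ℝ) ^ 3 ≤ (n : ℝ) ^ 4 := pow_le_pow_right₀ hn1 (by norm_num)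
  have p2 : (n : ℝ) ^ 2 ≤ (n : ℝ) ^ 4 := pow_le_pow_right₀ hn1 (by norm_num)
  have p1 : (n : ℝ) ≤ (n : ℝ) ^ 4 := le_self_pow₀ hn1 (by norm_num)
  have p4 : 0 < (n : ℝ) ^ 4 := by positivity
  by_contra hc
  have key := hC L v w (5 * n ^ 4 + 10 * n ^ 3 + 10 * n ^ 2 + 5 * n) ((n : ℤ) ^ 5) hw hwv hvL hCw
    (by
      rw [hexp]
      push_cast
      exact le_self_pow₀ hn1 (by norm_num))
    (by
      rw [show 4 * L = (4 : ℕ) * L by norm_num, exp_nat_mul, hexp]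
      push_cast
      nlinarith [pow_pos (show (0 : ℝ) < n by linarith) 3, sq_nonneg (n : ℝ)])
    (A.image fun p : ℕ => (p : ℤ))
    (fun x hx => by
      obtain ⟨p, hp, rfl⟩ := mem_image.1 hx
      obtain ⟨-, h1, h2⟩ := hA p hp
      have h3 : (n : ℤ) ^ 5 < p := by exact_mod_cast h1
      have h4 : (p : ℤ) < ((n : ℤ) + 1) ^ 5 := by exact_mod_cast h2
      refine mem_Ioc.2 ⟨h3, ?_⟩
      push_cast
      have h5 : ((n : ℤ) + 1) ^ 5 =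
        (n : ℤ) ^ 5 + (5 * n ^ 4 + 10 * n ^ 3 + 10 * n ^ 2 + 5 * n) + 1 := by ring
      omega)
    (fun x hx => by
      obtain ⟨p, hp, rfl⟩ := mem_image.1 hx
      exact Nat.prime_iff_prime_int.1 (hA p hp).1)
    (fun p a b ha hab hb h0 h1 h2 h3 => by
      obtain ⟨p, hp, rfl⟩ := mem_image.1 h0
      lift a to ℕ using ha.le
      lift b to ℕ using (ha.trans hab).le
      have hi : ∀ x : ℕ, (x : ℤ) ∈ (A.image fun p : ℕ => (p : ℤ)) → x ∈ A := fun x hx => by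
        obtain ⟨y, hy, hxy⟩ := mem_image.1 hx
        rwa [← Nat.cast_injective hxy]
      refine hc ⟨p, a, b, by exact_mod_cast ha, by exact_mod_cast hab, le_trans ?_ hH1, hp,
        hi _ (by exact_mod_cast h1), hi _ (by exact_mod_cast h2), hi _ (by exact_mod_cast h3)⟩
      exact_mod_cast hb)
  rw [card_image_of_injective _ Nat.cast_injective] at key
  have k1 : (A.card : ℝ) * ((v : ℝ) ^ 2 * (w : ℝ) ^ 2) ≤
      2 * ((5 * (n : ℝ) ^ 4 + 10 * (n : ℝ) ^ 3 + 10 * (n : ℝ) ^ 2 + 5 * n) +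
        (((v * w ^ 5) ^ 3 : ℕ) : ℝ)) := by exact_mod_cast key
  rw [div_le_iff₀ (by positivity), mul_comm W] at hcard
  have k2 : L * W ≤ 4 * (v : ℝ) ^ 2 * (2 * w) :=
    mul_le_mul hLv (by linarith) (by positivity) (by positivity)
  have k3 : (n : ℝ) ^ 4 * w ≤ A.card * (4 * (v : ℝ) ^ 2 * (2 * w)) * w := by
    gcongr
    exact hcard.trans (by gcongr)
  nlinarith

theorem fin2 : ∃ C : ℝ, 1 ≤ C ∧ ∀ (n : ℕ) (W : ℝ), 16 ≤ log n → C * log (log n) ≤ W →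
    W ^ 30 ≤ log n → ∀ B : Finset ℕ, (∀ p ∈ B, n ^ 5 < p ∧ p < (n + 1) ^ 5 ∧
      ∃ a b : ℕ, 0 < a ∧ a < b ∧ (b : ℝ) * W ^ 15 ≤ log n ^ (3 / 2 : ℝ) ∧
        p.Prime ∧ (p + a).Prime ∧ (p + b).Prime ∧ (p + a + b).Prime) →
      (B.card : ℝ) ≤ (n : ℝ) ^ 4 / (W * log n) := by
  obtain ⟨C, hC1, hC⟩ := core2
  refine ⟨C + 2049, by linarith, fun n W h1 hW hW30 B hB => ?_⟩
  obtain ⟨-, h3, W1⟩ := floor_w hC1 h1 hW
  have hn1 : 1 ≤ n := Nat.pos_of_ne_zero fun e => by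
    rw [e, Nat.cast_zero, log_zero] at h1
    linarith
  have hn0 : (0 : ℝ) < n := by exact_mod_cast hn1
  obtain ⟨L, hL⟩ : ∃ L, L = log n := ⟨_, rfl⟩
  have e1 : exp L = n := hL ▸ exp_log hn0
  rw [← hL] at h1 h3 hB hW30 ⊢
  have L0 : 0 < L := by linarith
  have L1 : 1 ≤ L := by linarith
  have hw : (⌊W⌋₊ : ℝ) ≤ W := Nat.floor_le (by linarith)
  have e3 : W ^ 15 ≤ L := (pow_le_pow_right₀ (by linarith) (by norm_num)).trans hW30
  have e4 : (L ^ (3 / 2 : ℝ)) ^ 2 = L ^ 3 := by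
    rw [← rpow_natCast, ← rpow_mul L0.le, ← rpow_natCast]
    norm_num
  have hb : (⌊L ^ (3 / 2 : ℝ) / W ^ 15⌋₊ : ℝ) * W ^ 15 ≤ L ^ (3 / 2 : ℝ) :=
    (le_div_iff₀ (by positivity)).1 (Nat.floor_le (by positivity))
  have hfl : ∀ b : ℕ, (b : ℝ) * W ^ 15 ≤ L ^ (3 / 2 : ℝ) → b ≤ ⌊L ^ (3 / 2 : ℝ) / W ^ 15⌋₊ :=
    fun b h => Nat.le_floor ((le_div_iff₀ (by positivity)).2 h)
  rw [mul_comm W]
  generalize ⌊L ^ (3 / 2 : ℝ) / W ^ 15⌋₊ = b0 at hb hfl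
  generalize ⌊W⌋₊ = w at h3 hw
  have b1 : ((b0 : ℝ) * W ^ 15) ^ 2 ≤ L ^ 3 := e4 ▸ pow_le_pow_left₀ (by positivity) hb 2
  have p13 : 8 ≤ W ^ 13 := (by linarith : 8 ≤ W).trans (le_self_pow₀ (by linarith) (by norm_num))
  have p15 : 1 ≤ W ^ 15 := one_le_pow₀ (by linarith)
  have p21 : 380928 ≤ W ^ 21 :=
    (by nlinarith : 380928 ≤ W ^ 2).trans (pow_le_pow_right₀ (by linarith) (by norm_num))
  have hw3 : (w : ℝ) ^ 2 ≤ W ^ 2 := pow_le_pow_left₀ (by positivity) hw 2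
  have b2 : (b0 : ℝ) ≤ L ^ 2 / 4 := by
    refine le_of_sq_le_sq ?_ (by positivity)
    have : (b0 : ℝ) ^ 2 ≤ (b0 * W ^ 15) ^ 2 :=
      pow_le_pow_left₀ (by positivity) (le_mul_of_one_le_right (by positivity) p15) 2
    nlinarith [mul_le_mul_of_nonneg_left h1 (by positivity : 0 ≤ L ^ 3)]
  have h4 := hC L w b0 (31 * n ^ 4) ((n : ℤ) ^ 5) (by nlinarith) (by linarith) h3
    (by nlinarith [mul_le_mul_of_nonneg_right p13 (by positivity : 0 ≤ W ^ 2)])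
    (by
      rw [e1]
      exact_mod_cast Nat.le_self_pow (by norm_num) n)
    (by
      rw [show 4 * L = ((4 : ℕ) : ℝ) * L by norm_num, exp_nat_mul, e1]
      push_cast
      linarith [pow_pos hn0 4])
    (B.image fun p : ℕ => (p : ℤ)) (fun x hx => ?_) fun x hx => ?_
  · rw [card_image_of_injective _ Nat.cast_injective] at h4
    rw [le_div_iff₀ (by positivity)]
    push_cast at h4
    have h5 : (b0 : ℝ) ^ 2 * (3 * (31 * n ^ 4) * (8 * (w : ℝ) ^ 2 / L) ^ 4) ≤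
        (b0 : ℝ) ^ 2 * (3 * (31 * n ^ 4) * (8 * W ^ 2 / L) ^ 4) := by gcongr
    refine (mul_le_mul_of_nonneg_right (h4.trans h5) (by positivity)).trans ?_
    have h6 : (b0 : ℝ) ^ 2 * (3 * (31 * n ^ 4) * (8 * W ^ 2 / L) ^ 4) * (L * W) =
        n ^ 4 * (380928 * (b0 ^ 2 * W ^ 9) / L ^ 3) := by
      field_simp
      ring
    rw [h6]
    refine mul_le_of_le_one_right (by positivity) ((div_le_one (by positivity)).2 ?_)
    refine (mul_le_mul_of_nonneg_right p21 (by positivity)).trans (le_trans (le_of_eq ?_) b1)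
    ring
  · obtain ⟨p, hp, rfl⟩ := mem_image.1 hx
    obtain ⟨a1, a2, -⟩ := hB p hp
    have a3 : (n + 1) ^ 5 ≤ n ^ 5 + 31 * n ^ 4 := by
      have c3 : n ^ 3 ≤ n ^ 4 := Nat.pow_le_pow_right hn1 (by norm_num)
      have c2 : n ^ 2 ≤ n ^ 4 := Nat.pow_le_pow_right hn1 (by norm_num)
      have c1 : n ≤ n ^ 4 := Nat.le_self_pow (by norm_num) n
      have c0 : (n + 1) ^ 5 = n ^ 5 + 5 * n ^ 4 + 10 * n ^ 3 + 10 * n ^ 2 + 5 * n + 1 := by ring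
      omega
    exact mem_Ioc.2 ⟨by exact_mod_cast a1, by exact_mod_cast a2.le.trans a3⟩
  · obtain ⟨p, hp, rfl⟩ := mem_image.1 hx
    obtain ⟨-, -, a, b, a1, a2, a3, a4, a5, a6, a7⟩ := hB p hp
    exact ⟨a, b, by exact_mod_cast a1, by exact_mod_cast a2, by exact_mod_cast hfl b a3,
      Nat.prime_iff_prime_int.1 a4, by exact_mod_cast Nat.prime_iff_prime_int.1 a5,
      by exact_mod_cast Nat.prime_iff_prime_int.1 a6,
      by exact_mod_cast Nat.prime_iff_prime_int.1 a7⟩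

end Pool.Agent.Lib.MP_c03ca8_nt.N
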