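import Pool.Agent.Lib.MP_778b46_nt.Sieve

/-!
A positive proportion of the intervals between consecutive fifth powers contain many primes.
-/

open Finset Real Filter

namespace Pool.Agent.Lib.MP_c03ca8_nt.N

open Pool.Agent.Lib.MP_778b46_nt

/-- Upper bound for the number of primes in an interval. -/
lemma mn_up (R y N : ℕ) (hR : 1 ≤ R) (hy : R ≤ y) :
    (((Ioc y (y + N)).filter Nat.Prime).card : ℝ) ≤ N / log (R + 1) + (R : ℝ) ^ 4 := by
  set P := Nat.primesLE R with hPdef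
  have hP : ∀ l ∈ P, l.Prime := fun l hl => Nat.prime_of_mem_primesLE hl
  have hR' : (1 : ℝ) ≤ R := by exact_mod_cast hR
  have hL : 0 < log (R + 1) := log_pos (by linarith)
  have hg : log (R + 1) ≤ gg P R := by
    have := log_le_gg_mul ∅ P R (by simp) hP fun l hl hlR => Or.inr (Nat.mem_primesLE.mpr ⟨hlR, hl⟩)
    simpa [mert] using this
  have hg1 := one_le_gg hP hR
  have h1 : (((Ioc y (y + N)).filter Nat.Prime).card : ℝ) ≤
      ∑ s ∈ Ioc (y : ℤ) (y + N), nu P R s := by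
    calc _ = ∑ p ∈ (Ioc y (y + N)).filter Nat.Prime, nu P R (p : ℤ) := by
          rw [card_eq_sum_ones, Nat.cast_sum]
          refine sum_congr rfl fun p hp => ?_
          obtain ⟨hp1, hp2⟩ := mem_filter.mp hp
          rw [nu_eq_one hP hR, Nat.cast_one]
          intro l hl hd
          rw [Int.natCast_dvd_natCast, Nat.prime_dvd_prime_iff_eq (hP l hl) hp2] at hd
          have := Nat.le_of_mem_primesLE hl
          have := (mem_Ioc.mp hp1).1
          omega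
      _ = ∑ s ∈ ((Ioc y (y + N)).filter Nat.Prime).image (fun p : ℕ => (p : ℤ)), nu P R s := by
          rw [sum_image fun a _ b _ h => by exact_mod_cast h]
      _ ≤ _ := by
          refine sum_le_sum_of_subset_of_nonneg ?_ fun _ _ _ => nu_nonneg _
          intro t ht
          obtain ⟨p, hp, rfl⟩ := mem_image.mp ht
          have := mem_Ioc.mp (mem_filter.mp hp).1
          rw [mem_Ioc]; omega
  have h2 : ∀ U ∈ P.powerset.erase ∅, ∑ s ∈ Ioc (y : ℤ) (y + N), beta P R U * ∏ l ∈ U, ps l s ≤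
      |beta P R U| * (R : ℝ) ^ 2 := by
    intro U hU
    obtain ⟨hU1, hU2⟩ := mem_erase.mp hU
    have h := ortho hP (mem_powerset.mp hU2) (empty_subset P) 0 0 y N
    simp only [add_zero, prod_empty, mul_one, if_neg hU1, mul_zero, sub_zero, Nat.cast_one] at h
    rw [← mul_sum]
    refine (le_abs_self _).trans ?_
    rw [abs_mul]
    by_cases h0 : beta P R U = 0
    · simp [h0]
    refine mul_le_mul_of_nonneg_left (h.trans ?_) (abs_nonneg _)
    exact_mod_cast prod_le_of_beta_ne hP h0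
  have h3 : ∑ s ∈ Ioc (y : ℤ) (y + N), (nu P R s - 1 / gg P R) ≤ (R : ℝ) ^ 4 := by
    rw [sum_congr rfl fun s _ => nu_sub hP hR s, ← sum_div, sum_comm]
    have h4 : ∑ U ∈ P.powerset.erase ∅, |beta P R U| ≤ (R : ℝ) ^ 2 :=
      (sum_le_sum_of_subset_of_nonneg (erase_subset _ _) fun _ _ _ => abs_nonneg _).trans
        (sum_abs_beta_le hP)
    have h5 := sum_le_sum h2
    rw [← sum_mul] at h5
    rw [div_le_iff₀ (by positivity)]
    calc _ ≤ (R : ℝ) ^ 2 * (R : ℝ) ^ 2 := h5.trans (by gcongr)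
      _ = (R : ℝ) ^ 4 * 1 := by ring
      _ ≤ _ := by gcongr; exact one_le_pow₀ hg1
  rw [sum_sub_distrib, sum_const, Int.card_Ioc, add_sub_cancel_left, Int.toNat_natCast,
    nsmul_eq_mul, mul_one_div] at h3
  have h6 : N / gg P R ≤ N / log (R + 1) := by gcongr
  linarith

lemma mn_len {n : ℕ} (hn : 1 ≤ n) : (n + 1) ^ 5 ≤ n ^ 5 + 31 * n ^ 4 := by
  have h1 : n ^ 3 ≤ n ^ 4 := Nat.pow_le_pow_right hn (by norm_num)
  have h2 : n ^ 2 ≤ n ^ 4 := Nat.pow_le_pow_right hn (by norm_num)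
  have h3 : n ^ 1 ≤ n ^ 4 := Nat.pow_le_pow_right hn (by norm_num)
  have h4 : n ^ 0 ≤ n ^ 4 := Nat.pow_le_pow_right hn (by norm_num)
  have h5 : (n + 1) ^ 5 = n ^ 5 + 5 * n ^ 4 + 10 * n ^ 3 + 10 * n ^ 2 + 5 * n ^ 1 + n ^ 0 := by ring
  omega

/-- The primes between consecutive fifth powers. -/
def pf (n : ℕ) : Finset ℕ := (Ioo (n ^ 5) ((n + 1) ^ 5)).filter Nat.Prime

lemma pf_sub (n : ℕ) : pf n ⊆ (Ioc (n ^ 5) (n ^ 5 + 31 * n ^ 4)).filter Nat.Prime := by
  intro p hp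
  obtain ⟨h1, h2⟩ := mem_filter.mp hp
  rw [mem_Ioo] at h1
  rcases Nat.eq_zero_or_pos n with rfl | hn
  · simp at h1; omega
  · have := mn_len hn
    exact mem_filter.mpr ⟨mem_Ioc.mpr ⟨h1.1, by omega⟩, h2⟩

lemma mn_tele (N : ℕ) : (Nat.primesLE (N ^ 5)).card ≤ ∑ n ∈ range N, (pf n).card := by
  induction N with
  | zero => simp
  | succ N ih =>
    rw [sum_range_succ]
    refine le_trans (card_le_card (t := Nat.primesLE (N ^ 5) ∪ pf N) fun p hp => ?_)
      ((card_union_le _ _).trans (by omega))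
    obtain ⟨h1, h2⟩ := Nat.mem_primesLE.mp hp
    by_cases h : p ≤ N ^ 5
    · exact mem_union_left _ (Nat.mem_primesLE.mpr ⟨h, h2⟩)
    · refine mem_union_right _ (mem_filter.mpr ⟨mem_Ioo.mpr ⟨by omega, lt_of_le_of_ne h1 ?_⟩, h2⟩)
      rintro rfl
      exact absurd h2.eq_one_of_pow (by norm_num)

lemma mn_low {N : ℕ} (hN : 3 ≤ N) :
    (N : ℝ) ^ 5 / (10 * log N) ≤ ∑ n ∈ range N, ((pf n).card : ℝ) := by
  have hN' : (3 : ℝ) ≤ N := by exact_mod_cast hN
  have hL : 0 < log (N : ℝ) := log_pos (by linarith)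
  have h1 := Chebyshev.pi_ge (N ^ 5)
  have h2 : ((Nat.primeCounting (N ^ 5) : ℕ) : ℝ) ≤ ∑ n ∈ range N, ((pf n).card : ℝ) := by
    rw [← Nat.primesLE_card_eq_primeCounting]
    exact_mod_cast mn_tele N
  refine le_trans ?_ (h1.trans h2)
  push_cast
  have h3 : log ((N : ℝ) ^ 5 + 1) ≤ 5 * N := by
    have h4 : (N : ℝ) ^ 5 + 1 ≤ (N + 1) ^ 5 := by
      nlinarith [pow_nonneg (show (0 : ℝ) ≤ N by linarith) 4,
        pow_nonneg (show (0 : ℝ) ≤ N by linarith) 3, pow_nonneg (show (0 : ℝ) ≤ N by linarith) 2]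
    have h5 := log_le_log (by positivity) h4
    rw [log_pow] at h5
    have h6 := log_le_sub_one_of_pos (show (0 : ℝ) < N + 1 by linarith)
    push_cast at h5
    linarith
  have h4 : (81 : ℝ) ≤ (N : ℝ) ^ 4 := le_trans (by norm_num) (pow_le_pow_left₀ (by norm_num) hN' 4)
  have h5 := log_two_gt_d9
  have h6 : (N : ℝ) ^ 5 = N * (N : ℝ) ^ 4 := by ring
  rw [log_pow, div_le_div_iff₀ (by positivity) (by positivity)]
  have h7 : (N : ℝ) ^ 5 / 2 ≤ (N : ℝ) ^ 5 * log 2 - log ((N : ℝ) ^ 5 + 1) := by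
    have : (0 : ℝ) ≤ (N : ℝ) ^ 5 := by positivity
    nlinarith
  push_cast
  nlinarith

theorem many (M : ℕ) : ∃ N0 : ℕ, ∀ N : ℕ, N0 ≤ N → ∃ G : Finset ℕ,
    (N : ℝ) / 2500 ≤ G.card ∧ ∀ n ∈ G, M ≤ n ∧ 1 ≤ n ∧ n ≤ N ∧
      (n : ℝ) ^ 4 / (80 * log n) ≤ (pf n).card := by
  refine ⟨M ^ 2 + 1240, fun N hM => ?_⟩
  have hN1 : (1240 : ℝ) ≤ N := by exact_mod_cast (show 1240 ≤ N by omega)
  set L := log (N : ℝ) with hL
  have hL0 : 0 < L := log_pos (by linarith)
  have hLN : L ≤ N := (log_le_sub_one_of_pos (by linarith)).trans (by linarith)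
  set G := (range N).filter fun n => N ≤ n ^ 2 ∧ (n : ℝ) ^ 4 / (80 * log n) ≤ (pf n).card
    with hG
  refine ⟨G, ?_, fun n hn => ?_⟩
  swap
  · obtain ⟨h1, h2, h3⟩ := mem_filter.mp hn
    have h4 : M ≤ n := by
      by_contra h
      have := Nat.pow_le_pow_left (show n ≤ M by omega) 2
      omega
    refine ⟨h4, ?_, (mem_range.mp h1).le, h3⟩
    rcases Nat.eq_zero_or_pos n with rfl | h
    · omega
    · exact h
  set E : ℝ := (N : ℝ) ^ 4 / L with hE
  have hE0 : 0 ≤ E := by positivity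
  have hNE : 1240 * (N : ℝ) ^ 2 ≤ E := by
    rw [hE, le_div_iff₀ hL0]
    calc 1240 * (N : ℝ) ^ 2 * L ≤ N * (N : ℝ) ^ 2 * N := by gcongr
      _ = _ := by ring
  have h1 : ∀ n ∈ range N, ((pf n).card : ℝ) ≤ E / 20 + if n ∈ G then 125 * E else 0 := by
    intro n hn
    have hnN : (n : ℝ) ≤ N := by exact_mod_cast (mem_range.mp hn).le
    have hi : 0 ≤ if n ∈ G then 125 * E else 0 := by split_ifs <;> positivity
    by_cases h2 : N ≤ n ^ 2
    · have h2' : (N : ℝ) ≤ (n : ℝ) ^ 2 := by exact_mod_cast h2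
      have hn1 : 1 ≤ n := by
        rcases Nat.eq_zero_or_pos n with rfl | h
        · omega
        · exact h
      have hn1' : (1 : ℝ) ≤ n := by exact_mod_cast hn1
      have hln : L / 2 ≤ log n := by
        have := log_le_log (by linarith) h2'
        rw [log_pow] at this
        push_cast at this
        linarith
      by_cases h3 : n ∈ G
      · rw [if_pos h3]
        have hR : 1 ≤ n.sqrt := Nat.sqrt_pos.mpr hn1
        have h4 := mn_up n.sqrt (n ^ 5) (31 * n ^ 4) hR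
          ((Nat.sqrt_le_self n).trans (Nat.le_self_pow (by norm_num) n))
        have h5 : ((pf n).card : ℝ) ≤ _ := Nat.cast_le.mpr (card_le_card (pf_sub n))
        have h6 : (n : ℝ) ≤ ((n.sqrt : ℝ) + 1) ^ 2 := by exact_mod_cast (Nat.lt_succ_sqrt' n).le
        have h7 : L / 4 ≤ log ((n.sqrt : ℝ) + 1) := by
          have := log_le_log (by linarith) h6
          rw [log_pow] at this
          push_cast at this
          linarith
        have h8 : ((31 * n ^ 4 : ℕ) : ℝ) / log ((n.sqrt : ℝ) + 1) ≤ 124 * E := by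
          calc _ ≤ 31 * (N : ℝ) ^ 4 / (L / 4) := by push_cast; gcongr
            _ = _ := by rw [hE]; field_simp; norm_num
        have h9 : (n.sqrt : ℝ) ^ 4 ≤ (N : ℝ) ^ 2 := by
          have : (n.sqrt : ℝ) ^ 2 ≤ n := by exact_mod_cast Nat.sqrt_le' n
          calc (n.sqrt : ℝ) ^ 4 = ((n.sqrt : ℝ) ^ 2) ^ 2 := by ring
            _ ≤ _ := by gcongr; linarith
        have : (0 : ℝ) ≤ (N : ℝ) ^ 2 := by positivity
        linarith
      · have h4 : ((pf n).card : ℝ) < (n : ℝ) ^ 4 / (80 * log n) := by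
          by_contra h
          exact h3 (mem_filter.mpr ⟨hn, h2, not_lt.mp h⟩)
        have h5 : L / 2 * 80 ≤ 80 * log n := by linarith
        have h6 : (n : ℝ) ^ 4 / (80 * log n) ≤ E / 40 := by
          calc _ ≤ (N : ℝ) ^ 4 / (L / 2 * 80) := by gcongr
            _ = _ := by rw [hE]; field_simp; norm_num
        linarith
    · have h3 : (pf n).card ≤ 31 * (n ^ 2) ^ 2 :=
        (card_le_card (pf_sub n)).trans ((card_filter_le _ _).trans (by simp; ring_nf; rfl))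
      have h4 : (pf n).card ≤ 31 * N ^ 2 :=
        h3.trans (Nat.mul_le_mul_left _ (Nat.pow_le_pow_left (by omega) 2))
      have h5 : ((pf n).card : ℝ) ≤ 31 * (N : ℝ) ^ 2 := by exact_mod_cast h4
      linarith
  have h2 := (mn_low (show 3 ≤ N by omega)).trans (sum_le_sum h1)
  rw [sum_add_distrib, sum_const, card_range, sum_ite_mem,
    inter_eq_right.mpr (filter_subset _ _), sum_const, nsmul_eq_mul, nsmul_eq_mul] at h2
  have h3 : (N : ℝ) ^ 5 / (10 * L) = N * E / 10 := by rw [hE]; field_simp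
  have hE1 : 0 < E := by positivity
  rw [← hL, h3] at h2
  refine le_of_mul_le_mul_right ?_ hE1
  linarith

/-- From dense sets of primes to a positive proportion of the intervals. -/
theorem third {g : ℕ → ℝ} {M : ℕ} (h : ∀ n : ℕ, M ≤ n →
    ∀ A : Finset ℕ, (∀ p ∈ A, p.Prime ∧ n ^ 5 < p ∧ p < (n + 1) ^ 5) →
      (n : ℝ) ^ 4 / (80 * log n) ≤ A.card →
      ∃ p a b : ℕ, 0 < a ∧ a < b ∧ (b : ℝ) ≤ g n ∧
        p ∈ A ∧ p + a ∈ A ∧ p + b ∈ A ∧ p + a + b ∈ A) :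
    ∃ N0 : ℕ, ∀ N : ℕ, N0 ≤ N → (N : ℝ) / 2500 ≤ Set.ncard {n : ℕ | 1 ≤ n ∧ n ≤ N ∧
      ∃ p a b : ℕ, 0 < a ∧ a < b ∧ (b : ℝ) ≤ g n ∧ n ^ 5 < p ∧ p + a + b < (n + 1) ^ 5 ∧
        p.Prime ∧ (p + a).Prime ∧ (p + b).Prime ∧ (p + a + b).Prime} := by
  obtain ⟨N0, h0⟩ := many M
  refine ⟨N0, fun N hN => ?_⟩
  obtain ⟨G, h1, h2⟩ := h0 N hN
  refine h1.trans (Nat.cast_le.mpr ?_)
  rw [← Set.ncard_coe_finset]
  refine Set.ncard_le_ncard (fun n hn => ?_)
    ((Set.finite_Iic N).subset fun n hn => hn.2.1)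
  obtain ⟨a1, a2, a3, a4⟩ := h2 n hn
  have hm : ∀ p ∈ pf n, p.Prime ∧ n ^ 5 < p ∧ p < (n + 1) ^ 5 := fun p hp =>
    ⟨(mem_filter.mp hp).2, mem_Ioo.mp (mem_filter.mp hp).1⟩
  obtain ⟨p, a, b, b1, b2, b3, b4, b5, b6, b7⟩ := h n a1 (pf n) hm a4
  exact ⟨a2, a3, p, a, b, b1, b2, b3, (hm _ b4).2.1, (hm _ b7).2.2, (hm _ b4).1, (hm _ b5).1,
    (hm _ b6).1, (hm _ b7).1⟩

end Pool.Agent.Lib.MP_c03ca8_nt.N
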