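import Pool.Agent.Lib.MP_c03ca8_nt.N.Sid

/-! A regular family of coincidences. -/

open Finset

namespace Pool.Agent.Lib.MP_c03ca8_nt.N

theorem relA_step {α β : Type} [DecidableEq α] [DecidableEq β] {V : Finset α}
    {key : α → β} {σ : ℕ} {Q : Finset (α × α)}
    (h1 : ∀ e ∈ Q, e.1 ∈ V ∧ e.2 ∈ V ∧ e.1 ≠ e.2 ∧ key e.1 = key e.2 ∧ e.swap ∈ Q)
    (h2 : ∀ v, (Q.filter fun e => e.1 = v).card ≤ σ) {x y : α} (hx : x ∈ V) (hy : y ∈ V)
    (hxy : x ≠ y) (hk : key x = key y) (rx : (Q.filter fun e => e.1 = x).card < σ)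
    (ry : (Q.filter fun e => e.1 = y).card < σ) :
    (∀ e ∈ insert (x, y) (insert (y, x) Q), e.1 ∈ V ∧ e.2 ∈ V ∧ e.1 ≠ e.2 ∧
      key e.1 = key e.2 ∧ e.swap ∈ insert (x, y) (insert (y, x) Q)) ∧
    ∀ v, ((insert (x, y) (insert (y, x) Q)).filter fun e => e.1 = v).card ≤ σ := by
  refine ⟨fun e he => ?_, fun v => ?_⟩
  · rcases mem_insert.1 he with rfl | he
    · exact ⟨hx, hy, hxy, hk, mem_insert_of_mem (mem_insert_self _ _)⟩
    rcases mem_insert.1 he with rfl | he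
    · exact ⟨hy, hx, hxy.symm, hk.symm, mem_insert_self _ _⟩
    obtain ⟨a, b, c, d, f⟩ := h1 e he
    exact ⟨a, b, c, d, mem_insert_of_mem (mem_insert_of_mem f)⟩
  · rw [filter_insert, filter_insert]
    by_cases hxv : x = v
    · have hyv : ¬ y = v := fun h => hxy (hxv.trans h.symm)
      rw [if_pos hxv, if_neg hyv]
      subst hxv
      exact (card_insert_le _ _).trans rx
    · by_cases hyv : y = v
      · rw [if_neg hxv, if_pos hyv]
        subst hyv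
        exact (card_insert_le _ _).trans ry
      · rw [if_neg hxv, if_neg hyv]
        exact h2 v

theorem relA_free {α : Type} [DecidableEq α] {σ : ℕ} {Q : Finset (α × α)} {F : Finset α}
    {x : α} (hx : x ∈ F) (hF : σ < F.card) (rx : (Q.filter fun e => e.1 = x).card < σ) :
    ∃ y ∈ F, x ≠ y ∧ (x, y) ∉ Q := by
  by_contra hne
  push Not at hne
  have hsub : (F.erase x).image (fun y => (x, y)) ⊆ Q.filter fun e => e.1 = x := by
    intro e he
    obtain ⟨y, hy, rfl⟩ := mem_image.1 he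
    exact mem_filter.2 ⟨hne y (mem_of_mem_erase hy) (ne_of_mem_erase hy).symm, rfl⟩
  have hc := card_le_card hsub
  rw [card_image_of_injective _ (Prod.mk_right_injective x), card_erase_of_mem hx] at hc
  omega

theorem exists_rel {α β : Type} [DecidableEq α] [DecidableEq β] (V : Finset α) (K : Finset β)
    (key : α → β) (hK : ∀ v ∈ V, key v ∈ K) (σ : ℕ) :
    ∃ Q : Finset (α × α),
      (∀ e ∈ Q, e.1 ∈ V ∧ e.2 ∈ V ∧ e.1 ≠ e.2 ∧ key e.1 = key e.2 ∧ e.swap ∈ Q) ∧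
      (∀ v, (Q.filter fun e => e.1 = v).card ≤ σ) ∧ σ * V.card ≤ Q.card + σ * σ * K.card := by
  classical
  obtain ⟨Q, hQ, hmax⟩ := exists_max_image ((V ×ˢ V).powerset.filter fun Q : Finset (α × α) =>
    (∀ e ∈ Q, e.1 ∈ V ∧ e.2 ∈ V ∧ e.1 ≠ e.2 ∧ key e.1 = key e.2 ∧ e.swap ∈ Q) ∧
      ∀ v, (Q.filter fun e => e.1 = v).card ≤ σ) card ⟨∅, by simp⟩
  obtain ⟨-, h1, h2⟩ := mem_filter.1 hQ
  refine ⟨Q, h1, h2, ?_⟩
  set W := V.filter fun v => (Q.filter fun e => e.1 = v).card < σ with hW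
  have hfib : ∀ k ∈ K, (W.filter fun v => key v = k).card ≤ σ := by
    intro k _
    by_contra hlt
    push Not at hlt
    obtain ⟨x, hx⟩ : (W.filter fun v => key v = k).Nonempty := card_pos.1 (by omega)
    obtain ⟨hxW, hxk⟩ := mem_filter.1 hx
    obtain ⟨hxV, rx⟩ := mem_filter.1 hxW
    obtain ⟨y, hy, hxy, hn⟩ := relA_free hx hlt rx
    obtain ⟨hyW, hyk⟩ := mem_filter.1 hy
    obtain ⟨hyV, ry⟩ := mem_filter.1 hyW
    obtain ⟨g1, g2⟩ := relA_step h1 h2 hxV hyV hxy (hxk.trans hyk.symm) rx ry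
    have hn' : (x, y) ∉ insert (y, x) Q := by
      intro h
      rcases mem_insert.1 h with h | h
      · exact hxy (Prod.mk.inj h).1
      · exact hn h
    have hm := hmax _ (mem_filter.2 ⟨mem_powerset.2 fun e he =>
      mem_product.2 ⟨(g1 e he).1, (g1 e he).2.1⟩, g1, g2⟩)
    rw [card_insert_of_notMem hn'] at hm
    have := card_le_card (subset_insert (y, x) Q)
    omega
  have hWc : W.card ≤ σ * K.card :=
    card_le_mul_card_image_of_maps_to (fun v hv => hK v (mem_filter.1 hv).1) σ hfib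
  have hQc : Q.card = ∑ v ∈ V, (Q.filter fun e => e.1 = v).card :=
    card_eq_sum_card_fiberwise fun e he => (h1 e he).1
  have hsum : σ * V.card ≤ Q.card + σ * W.card := by
    rw [hQc, hW, card_filter, mul_sum, ← sum_add_distrib, mul_comm, ← smul_eq_mul]
    refine card_nsmul_le_sum _ _ _ fun v _ => ?_
    split_ifs with h
    · omega
    · omega
  calc σ * V.card ≤ Q.card + σ * W.card := hsum
    _ ≤ Q.card + σ * (σ * K.card) := by gcongr
    _ = Q.card + σ * σ * K.card := by ring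

theorem edges {A U : Finset ℤ} {H σ : ℕ} {Λ : ℝ} (hA : WS A) (hAH : A ⊆ Ico 0 (H : ℤ))
    (hUH : U ⊆ Ico 0 (H : ℤ)) (hσ : 8 ≤ σ) (hH : 4 * H * σ ≤ A.card * U.card) (hΛ : 0 < Λ)
    (h : 4 * (U.card : ℝ) ≤ Λ ^ 2) :
    ∃ Q : Finset (ℤ × ℤ × ℤ), Sym A U Q ∧
      (∀ u a, (Q.filter fun e => e.1 = u ∧ e.2.1 = a).card ≤ σ) ∧
      (∀ u a, ((Q.filter fun e => e.1 = u ∧ e.2.2 = a).card : ℝ) ≤ Λ) ∧
      σ * A.card * U.card ≤ 4 * Q.card := by
  classical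
  obtain ⟨Q₀, h1, h2, h3⟩ := exists_rel (U ×ˢ A) (Ico 0 (2 * H : ℤ)) (fun v => v.1 + v.2)
    (fun v hv => by
      have a1 := mem_Ico.mp (hUH (mem_product.mp hv).1)
      have a2 := mem_Ico.mp (hAH (mem_product.mp hv).2)
      exact mem_Ico.mpr ⟨by omega, by omega⟩) σ
  have hv := heavy hA hΛ h
  set cnt : ℤ → ℕ := fun d => ((U ×ˢ A).filter fun e' : ℤ × ℤ => e'.1 - e'.2 = d).card with hcnt
  set Hv := (U ×ˢ A).filter fun e : ℤ × ℤ => Λ < (cnt (e.1 - e.2) : ℝ) with hHv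
  set Q := (U ×ˢ A ×ˢ A).filter fun e : ℤ × ℤ × ℤ =>
    ((e.1, e.2.1), (e.1 + e.2.1 - e.2.2, e.2.2)) ∈ Q₀ ∧ (cnt (e.1 - e.2.2) : ℝ) ≤ Λ with hQ
  have hm : ∀ u a b, (u, a, b) ∈ Q ↔ (u ∈ U ∧ a ∈ A ∧ b ∈ A) ∧
      ((u, a), (u + a - b, b)) ∈ Q₀ ∧ (cnt (u - b) : ℝ) ≤ Λ := fun u a b => by
    simp only [hQ, mem_filter, mem_product]
  refine ⟨Q, ?_, fun u a => ?_, fun u b => ?_, ?_⟩
  · rintro ⟨u, a, b⟩ he
    obtain ⟨⟨k1, k2, k3⟩, k4, k5⟩ := (hm u a b).mp he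
    obtain ⟨-, l2, l3, -, l5⟩ := h1 _ k4
    refine ⟨k1, k2, k3, fun hab => l3 ?_, (hm _ _ _).mpr ⟨⟨(mem_product.mp l2).1, k3, k2⟩, ?_, ?_⟩⟩
    · have hab' : a = b := hab
      subst hab'
      simp
    · have e : u + a - b + b - a = u := by ring
      show ((u + a - b, b), (u + a - b + b - a, a)) ∈ Q₀
      rw [e]
      exact l5
    · have e : u + a - b - a = u - b := by ring
      show (cnt (u + a - b - a) : ℝ) ≤ Λ
      rw [e]
      exact k5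
  · refine le_trans (card_le_card_of_injOn
      (fun e : ℤ × ℤ × ℤ => ((e.1, e.2.1), (e.1 + e.2.1 - e.2.2, e.2.2))) ?_ ?_) (h2 (u, a))
    · rintro ⟨u', a', b⟩ he
      obtain ⟨k1, k2, k3⟩ := mem_filter.mp (mem_coe.mp he)
      exact mem_coe.mpr (mem_filter.mpr ⟨((hm _ _ _).mp k1).2.1, Prod.ext k2 k3⟩)
    · rintro ⟨u₁, a₁, b₁⟩ - ⟨u₂, a₂, b₂⟩ - he
      simp only [Prod.mk.injEq] at he ⊢
      exact ⟨he.1.1, he.1.2, he.2.2⟩
  · rcases (Q.filter fun e => e.1 = u ∧ e.2.2 = b).eq_empty_or_nonempty with h0 | ⟨⟨u', a', b'⟩, he⟩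
    · rw [h0]; simpa using hΛ.le
    obtain ⟨k1, k2, k3⟩ := mem_filter.mp he
    have k2' : u' = u := k2
    have k3' : b' = b := k3
    subst k2' k3'
    refine le_trans ?_ ((hm _ _ _).mp k1).2.2
    refine Nat.cast_le.mpr (card_le_card_of_injOn
      (fun e : ℤ × ℤ × ℤ => (e.1 + e.2.1 - e.2.2, e.2.1)) ?_ ?_)
    · rintro ⟨u₁, a₁, b₁⟩ he₁
      obtain ⟨l1, l2, l3⟩ := mem_filter.mp (mem_coe.mp he₁)
      obtain ⟨⟨-, m2, -⟩, m4, -⟩ := (hm _ _ _).mp l1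
      have l2' : u₁ = u' := l2
      have l3' : b₁ = b' := l3
      refine mem_coe.mpr (mem_filter.mpr ⟨mem_product.mpr
        ⟨(mem_product.mp (h1 _ m4).2.1).1, m2⟩, ?_⟩)
      show u₁ + a₁ - b₁ - a₁ = u' - b'
      omega
    · rintro ⟨u₁, a₁, b₁⟩ he₁ ⟨u₂, a₂, b₂⟩ he₂ he
      obtain ⟨-, l2, l3⟩ := mem_filter.mp (mem_coe.mp he₁)
      obtain ⟨-, m2, m3⟩ := mem_filter.mp (mem_coe.mp he₂)
      simp only [Prod.mk.injEq] at he l2 l3 m2 m3 ⊢
      exact ⟨l2.trans m2.symm, he.2, l3.trans m3.symm⟩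
  · have c1 : Q₀.card ≤ (Q ∪ (Hv ×ˢ A).image fun p => (p.1.1, p.2, p.1.2)).card := by
      refine card_le_card_of_injOn (fun e => (e.1.1, e.1.2, e.2.2)) ?_ ?_
      · rintro ⟨⟨u, a⟩, u', b⟩ he
        obtain ⟨l1, l2, -, l4, -⟩ := h1 _ he
        have l1' := mem_product.mp l1
        have l2' := mem_product.mp l2
        have l4' : u + a = u' + b := l4
        refine mem_coe.mpr (mem_union.mpr ?_)
        rcases le_or_gt (cnt (u - b) : ℝ) Λ with k | k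
        · refine Or.inl ((hm _ _ _).mpr ⟨⟨l1'.1, l1'.2, l2'.2⟩, ?_, k⟩)
          rw [show u + a - b = u' by omega]
          exact he
        · exact Or.inr (mem_image.mpr ⟨((u, b), a), mem_product.mpr
            ⟨mem_filter.mpr ⟨mem_product.mpr ⟨l1'.1, l2'.2⟩, k⟩, l1'.2⟩, rfl⟩)
      · rintro ⟨⟨u₁, a₁⟩, v₁, b₁⟩ he₁ ⟨⟨u₂, a₂⟩, v₂, b₂⟩ he₂ he
        have l1 : u₁ + a₁ = v₁ + b₁ := (h1 _ he₁).2.2.2.1
        have l2 : u₂ + a₂ = v₂ + b₂ := (h1 _ he₂).2.2.2.1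
        simp only [Prod.mk.injEq] at he ⊢
        omega
    have c2 : Q₀.card ≤ Q.card + 2 * U.card * A.card := by
      refine c1.trans ((card_union_le _ _).trans (Nat.add_le_add_left (card_image_le.trans ?_) _))
      rw [card_product]
      exact Nat.mul_le_mul_right _ hv
    have c3 : (Ico 0 (2 * H : ℤ)).card = 2 * H := by rw [Int.card_Ico]; omega
    rw [c3, card_product] at h3
    have c4 := Nat.mul_le_mul_left σ hH
    have c5 := Nat.mul_le_mul_right (A.card * U.card) hσ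
    nlinarith

end Pool.Agent.Lib.MP_c03ca8_nt.N
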