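import Pool.Agent.Lib.MP_c03ca8_nt.N.Bonf
import Pool.Agent.Lib.MP_778b46_nt.Mertens

/-! Upper bounds for prime tuples of growing length. -/

open Finset Real

namespace Pool.Agent.Lib.MP_c03ca8_nt.N

open Pool.Agent.Lib.MP_778b46_nt in
theorem svA_lower : ∃ C : ℝ, 0 ≤ C ∧ ∀ H z : ℕ, 2 ≤ H →
    log (z + 1) ≤ C * log H * exp (∑ p ∈ (Nat.primesLE z).filter (H ≤ ·), (1 : ℝ) / p) := by
  obtain ⟨C, hC1, hC⟩ := mert_le
  refine ⟨C * exp 2, by positivity, fun H z hH => ?_⟩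
  have hz : ∀ l ∈ Nat.primesLE z, l.Prime := fun l hl => Nat.prime_of_mem_primesLE hl
  have h1 := log_le_gg_mul (Nat.primesLE z) ∅ z hz (by simp)
    fun l hl h => Or.inl (Nat.mem_primesLE.2 ⟨h, hl⟩)
  have h2 : gg ∅ z ≤ 1 := by
    rw [gg, dd, powerset_empty, sum_filter, sum_singleton]
    split_ifs <;> simp
  set P := (Nat.primesLE z).filter (H ≤ ·) with hP
  have hpr : ∀ l ∈ P, l.Prime := fun l hl => hz l (mem_filter.1 hl).1
  have h3 : mert (Nat.primesLE z) = mert P * mert ((Nat.primesLE z).filter fun p => ¬ H ≤ p) :=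
    (prod_filter_mul_prod_filter_not _ _ _).symm
  have h4 := hC H hH ((Nat.primesLE z).filter fun p => ¬ H ≤ p) fun p hp =>
    Nat.mem_primesLE.2 ⟨(not_le.1 (mem_filter.1 hp).2).le, hz p (mem_filter.1 hp).1⟩
  have h5 : mert P ≤ exp (∑ l ∈ P, uu l) := by
    rw [exp_sum, mert]
    refine prod_le_prod (fun l hl => by linarith [uu_pos (hpr l hl)]) fun l _ => ?_
    linarith [add_one_le_exp (uu l)]
  have h6 : ∑ l ∈ P, uu l ≤ ∑ l ∈ P, (1 : ℝ) / l + ∑ l ∈ P, uu l ^ 2 := by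
    rw [← sum_add_distrib]
    refine sum_le_sum fun l hl => ?_
    have h3 := mul_uu (hpr l hl)
    have h4 := uu_pos (hpr l hl)
    have h5 : (0 : ℝ) < l := by exact_mod_cast (hpr l hl).pos
    have h6 : uu l = 1 / l + uu l / l := by field_simp; linarith
    have h7 : uu l / l ≤ uu l ^ 2 := by
      rw [div_le_iff₀ h5]; nlinarith
    linarith
  have h7 : ∑ l ∈ P, uu l ^ 2 ≤ 2 := by
    have := sum_uu_sq_le (P := P) (w := 1) le_rfl fun l hl => (hpr l hl).one_lt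
    simpa using this
  have h8 : mert P ≤ exp (∑ l ∈ P, (1 : ℝ) / l) * exp 2 := by
    rw [← exp_add]
    exact h5.trans (exp_le_exp.2 (by linarith))
  have h9 := one_le_mert hz
  have h10 := one_le_mert (P := (Nat.primesLE z).filter fun p => ¬ H ≤ p)
    fun l hl => hz l (mem_filter.1 hl).1
  calc log (z + 1) ≤ mert (Nat.primesLE z) := h1.trans (by nlinarith)
    _ ≤ (exp (∑ l ∈ P, (1 : ℝ) / l) * exp 2) * (C * log H) := by
      rw [h3]
      exact mul_le_mul h8 h4 (by linarith) (by positivity)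
    _ = _ := by ring

theorem svA_rem {L E ρ : ℝ} {r t m N : ℕ} (hE : 4 ≤ E) (hr : E ^ r = exp L) (hm : (m : ℝ) ≤ E)
    (ht : (t : ℝ) ≤ E) (htr : t ≤ r) (hρ : 1 ≤ ρ * E) (hN : exp (4 * L) ≤ N) :
    ((r : ℝ) + 1) * ((m : ℝ) * t + 1) ^ r ≤ N * ρ ^ t := by
  have h1 : (r : ℝ) + 1 ≤ 2 ^ r := by exact_mod_cast Nat.lt_two_pow_self
  have h2 : (m : ℝ) * t ≤ E * E := mul_le_mul hm ht (by positivity) (by linarith)
  have h3 : ((r : ℝ) + 1) * ((m : ℝ) * t + 1) ^ r ≤ exp L ^ 3 := by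
    calc ((r : ℝ) + 1) * ((m : ℝ) * t + 1) ^ r ≤ 2 ^ r * ((m : ℝ) * t + 1) ^ r := by gcongr
      _ = (2 * ((m : ℝ) * t + 1)) ^ r := (mul_pow _ _ _).symm
      _ ≤ (E ^ 3) ^ r := pow_le_pow_left₀ (by positivity) (by nlinarith) r
      _ = exp L ^ 3 := by rw [← hr, ← pow_mul, ← pow_mul, mul_comm]
  have hρ0 : 0 < ρ := by nlinarith
  have h4 : 1 ≤ ρ ^ t * exp L := by
    calc (1 : ℝ) ≤ (ρ * E) ^ t := one_le_pow₀ hρ
      _ = ρ ^ t * E ^ t := mul_pow _ _ _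
      _ ≤ ρ ^ t * E ^ r := by gcongr; linarith
      _ = _ := by rw [hr]
  have h5 : exp (4 * L) = exp L ^ 3 * exp L := by
    rw [← pow_succ, ← exp_nat_mul]; norm_num
  calc _ ≤ exp L ^ 3 * 1 := by rwa [mul_one]
    _ ≤ exp L ^ 3 * (ρ ^ t * exp L) := by gcongr
    _ = exp (4 * L) * ρ ^ t := by rw [h5]; ring
    _ ≤ _ := by gcongr

theorem sieve2 : ∃ C : ℝ, 1 ≤ C ∧ ∀ (L : ℝ) (w H N : ℕ) (T : Finset ℤ) (y : ℤ),
    T ⊆ Ico 0 (H : ℤ) → 1 ≤ T.card → 2 ≤ H → (H : ℝ) ≤ L ^ 2 → 2 ≤ L → C * log L ≤ w →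
    2 * T.card * (w : ℝ) ^ 2 ≤ L → exp (4 * L) ≤ N →
    ∀ B ⊆ Ioc y (y + N), (∀ n ∈ B, ∀ h ∈ T, exp L < ((n + h : ℤ) : ℝ) ∧ Prime (n + h)) →
      (B.card : ℝ) ≤ 3 * N * (2 * T.card * (w : ℝ) ^ 2 / L) ^ T.card := by
  obtain ⟨C0, hC0⟩ := Pool.Agent.Lib.MP_778b46_nt.sum_inv_le
  obtain ⟨C1, hC1, hlow⟩ := svA_lower
  have ha := abs_nonneg C0
  refine ⟨5 + 2 * C1 + 4 * |C0|, by linarith,
    fun L w H N T y hT ht hH hHL hL hw htw hN B hB hp => ?_⟩
  have hL0 : 0 < L := by linarith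
  have hlg : 1 / 2 ≤ log L := le_trans (by linarith [log_two_gt_d9]) (log_le_log two_pos hL)
  have hw0 : 0 ≤ C1 * log L := mul_nonneg hC1 (by linarith)
  have hw0' : |C0| * (1 / 2) ≤ |C0| * log L := mul_le_mul_of_nonneg_left hlg ha
  have hw1 : 2 * C1 * log L ≤ w := by linarith
  have hw2 : 2 * (log L + C0) ≤ w := by linarith [le_abs_self C0]
  have hw3 : log L ≤ w := by linarith
  have hw4 : (2 : ℝ) ≤ w := by linarith
  have ht1 : (1 : ℝ) ≤ T.card := by exact_mod_cast ht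
  obtain ⟨r, hr⟩ : ∃ r : ℕ, r = 2 * T.card * w := ⟨_, rfl⟩
  have hr' : (r : ℝ) = 2 * T.card * w := by rw [hr]; push_cast; ring
  have hr1 : (T.card : ℝ) ≤ r := by
    linarith [mul_le_mul_of_nonneg_left hw4 (T.card.cast_nonneg (α := ℝ))]
  have hr0 : (0 : ℝ) < r := by linarith
  have hx : (w : ℝ) ≤ L / r := by rw [le_div_iff₀ hr0, hr']; linarith
  have hxL : L / r ≤ L := div_le_self hL0.le (by linarith)
  have hE : L ≤ exp (L / r) := by
    rw [← log_le_iff_le_exp hL0]; linarith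
  have hw5 : (4 : ℝ) ≤ (w : ℝ) ^ 2 := by linarith [pow_le_pow_left₀ zero_le_two hw4 2]
  have hL7 := mul_le_mul_of_nonneg_left hw5 (T.card.cast_nonneg (α := ℝ))
  have hL8 : 8 * (T.card : ℝ) ≤ L := by linarith
  obtain ⟨z, hz⟩ : ∃ z : ℕ, z = ⌊exp (L / r)⌋₊ := ⟨_, rfl⟩
  have hz1 : (z : ℝ) ≤ exp (L / r) := hz ▸ Nat.floor_le (exp_pos _).le
  have hz2 : exp (L / r) < z + 1 := hz ▸ Nat.lt_floor_add_one _
  have hz3 : 2 ≤ z := hz ▸ Nat.le_floor (by push_cast; linarith)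
  have hz4 : (1 : ℝ) < z := by exact_mod_cast hz3
  have hlo := hlow H z hH
  set P := (Nat.primesLE z).filter (H ≤ ·) with hP
  set S := ∑ p ∈ P, (1 : ℝ) / p with hS
  have hS1 : S ≤ log L + C0 := by
    have h1 : S ≤ _ := (sum_le_sum_of_subset_of_nonneg (filter_subset _ _)
      fun _ _ _ => by positivity).trans (hC0 z hz3)
    have h2 : log z ≤ L := by
      rw [log_le_iff_le_exp (by linarith)]
      exact hz1.trans (exp_le_exp.2 hxL)
    linarith [log_le_log (log_pos hz4) h2]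
  have hs := sieve T H hT P (fun p hp => ⟨Nat.prime_of_mem_primesLE (mem_filter.1 hp).1,
    (mem_filter.1 hp).2⟩) r ⟨T.card * w, by rw [hr]; ring⟩ (by
      linarith [mul_le_mul_of_nonneg_left (show 2 * S ≤ w by linarith)
        (T.card.cast_nonneg (α := ℝ))]) y N
  have hH0 : (0 : ℝ) < H := by exact_mod_cast (by omega : 0 < H)
  have hlH : log H ≤ 2 * log L := by
    have := log_le_log hH0 hHL
    rwa [log_pow] at this
  have hmain : exp (-S) ≤ 2 * T.card * (w : ℝ) ^ 2 / L := by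
    have h1 : L / r ≤ log (z + 1) := by
      rw [le_log_iff_exp_le (by linarith)]; exact hz2.le
    have h2 : C1 * log H * exp S ≤ w * exp S := mul_le_mul_of_nonneg_right
      (by linarith [mul_le_mul_of_nonneg_left hlH hC1]) (exp_pos S).le
    have h3 : L ≤ w * exp S * r := by rw [← div_le_iff₀ hr0]; linarith
    rw [exp_neg, le_div_iff₀ hL0, inv_mul_le_iff₀ (exp_pos S)]
    rw [hr'] at h3
    linarith
  have hm : (P.card : ℝ) ≤ exp (L / r) := by
    refine le_trans ?_ hz1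
    have : P ⊆ Ioc 0 z := fun p hp => mem_Ioc.2
      ⟨(Nat.prime_of_mem_primesLE (mem_filter.1 hp).1).pos,
        Nat.le_of_mem_primesLE (mem_filter.1 hp).1⟩
    exact_mod_cast (card_le_card this).trans (by simp)
  have hrem := svA_rem (L := L) (E := exp (L / r)) (ρ := 2 * T.card * (w : ℝ) ^ 2 / L) (r := r)
    (t := T.card) (m := P.card) (N := N) (by linarith)
    (by rw [← exp_nat_mul, mul_div_cancel₀ _ hr0.ne']) hm (by linarith) (by exact_mod_cast hr1)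
    (by
      rw [div_mul_eq_mul_div, le_div_iff₀ hL0]
      exact mul_le_mul (by linarith) hE hL0.le (by positivity)) hN
  have hsub : B ⊆ (Ioc y (y + N)).filter fun n => ∀ h ∈ T, ∀ p ∈ P, ¬ (p : ℤ) ∣ n + h := by
    refine fun n hn => mem_filter.2 ⟨hB hn, fun h hh p hpP hd => ?_⟩
    obtain ⟨h1, h2⟩ := hp n hn h hh
    have h3 := Nat.prime_of_mem_primesLE (mem_filter.1 hpP).1
    have h4 : n + h ≤ p := Int.le_of_dvd (by exact_mod_cast h3.pos)
      ((Nat.prime_iff_prime_int.1 h3).associated_of_dvd h2 hd).symm.dvd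
    have h5 : ((n + h : ℤ) : ℝ) ≤ p := by exact_mod_cast h4
    have h6 : (p : ℝ) ≤ z := by exact_mod_cast Nat.le_of_mem_primesLE (mem_filter.1 hpP).1
    linarith [exp_le_exp.2 hxL]
  have hc : (B.card : ℝ) ≤ _ := (Nat.cast_le.2 (card_le_card hsub)).trans hs
  have hpw : exp (-(T.card * S)) ≤ (2 * T.card * (w : ℝ) ^ 2 / L) ^ T.card := by
    rw [← mul_neg, exp_nat_mul]
    exact pow_le_pow_left₀ (exp_pos _).le hmain _
  have := mul_le_mul_of_nonneg_left hpw (by positivity : (0 : ℝ) ≤ 2 * N)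
  linarith

theorem core2 : ∃ C : ℝ, 1 ≤ C ∧ ∀ (L : ℝ) (w b0 Y : ℕ) (X : ℤ),
    2 * (b0 : ℝ) + 2 ≤ L ^ 2 → 2 ≤ L → C * log L ≤ w → 8 * (w : ℝ) ^ 2 ≤ L → exp L ≤ X →
    exp (4 * L) ≤ Y → ∀ B ⊆ Ioc X (X + Y),
      (∀ p ∈ B, ∃ a b : ℤ, 0 < a ∧ a < b ∧ b ≤ b0 ∧ Prime p ∧ Prime (p + a) ∧ Prime (p + b) ∧
        Prime (p + a + b)) →
      (B.card : ℝ) ≤ (b0 : ℝ) ^ 2 * (3 * Y * (8 * (w : ℝ) ^ 2 / L) ^ 4) := by
  classical
  obtain ⟨C, hC1, hC⟩ := sieve2
  refine ⟨C, hC1, fun L w b0 Y X hH hL hw h8 hX hY B hB hp => ?_⟩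
  set β : ℝ := 3 * Y * (8 * (w : ℝ) ^ 2 / L) ^ 4 with hβ
  have hβ0 : 0 ≤ β := by positivity
  set Ω : Finset (ℤ × ℤ) := Icc (1 : ℤ) b0 ×ˢ Icc (1 : ℤ) b0 with hΩ
  set F : ℤ × ℤ → Finset ℤ := fun e => B.filter fun p => e.1 < e.2 ∧ Prime p ∧
    Prime (p + e.1) ∧ Prime (p + e.2) ∧ Prime (p + e.1 + e.2) with hF
  have hcov : B ⊆ Ω.biUnion F := by
    intro p hpB
    obtain ⟨a, b, ha, hab, hb, h0, h1, h2, h3⟩ := hp p hpB
    refine mem_biUnion.2 ⟨(a, b), ?_, mem_filter.2 ⟨hpB, hab, h0, h1, h2, h3⟩⟩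
    simp only [hΩ, mem_product, mem_Icc]
    omega
  have hone : ∀ e ∈ Ω, ((F e).card : ℝ) ≤ β := by
    rintro ⟨a, b⟩ he
    simp only [hΩ, mem_product, mem_Icc] at he
    by_cases hab : a < b
    swap
    · have : F (a, b) = ∅ := filter_eq_empty_iff.2 fun p _ h => hab h.1
      rw [this]
      simpa using hβ0
    have hT4 : ({0, a, b, a + b} : Finset ℤ).card = 4 := by
      rw [card_insert_of_notMem, card_insert_of_notMem, card_insert_of_notMem, card_singleton]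
      · simp only [mem_singleton]; omega
      · simp only [mem_insert, mem_singleton]; omega
      · simp only [mem_insert, mem_singleton]; omega
    have key := hC L w (2 * b0 + 2) Y {0, a, b, a + b} X ?_ (by omega) (by omega)
      (by push_cast; exact hH) hL hw (by rw [hT4]; push_cast; linarith) hY (F (a, b))
      ((filter_subset _ _).trans hB) ?_
    · rw [hT4] at key
      have e8 : (2 * ((4 : ℕ) : ℝ) * (w : ℝ) ^ 2 / L) = 8 * (w : ℝ) ^ 2 / L := by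
        push_cast; ring
      rw [e8] at key
      exact key
    · intro h hh
      simp only [mem_insert, mem_singleton] at hh
      simp only [mem_Ico]
      push_cast
      omega
    · intro n hn h hh
      obtain ⟨hnB, -, h0, h1, h2, h3⟩ := mem_filter.1 hn
      have hnX : X < n := (mem_Ioc.1 (hB hnB)).1
      simp only [mem_insert, mem_singleton] at hh
      refine ⟨?_, ?_⟩
      · have h5 : X < n + h := by omega
        have h6 : (X : ℝ) < ((n + h : ℤ) : ℝ) := by exact_mod_cast h5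
        linarith
      · rcases hh with rfl | rfl | rfl | rfl
        · simpa using h0
        · exact h1
        · exact h2
        · simpa [add_assoc] using h3
  have hΩc : (Ω.card : ℝ) = (b0 : ℝ) ^ 2 := by
    simp [hΩ, sq]
  calc (B.card : ℝ) ≤ ((Ω.biUnion F).card : ℝ) := by exact_mod_cast card_le_card hcov
    _ ≤ ∑ e ∈ Ω, ((F e).card : ℝ) := by exact_mod_cast card_biUnion_le
    _ ≤ Ω.card • β := sum_le_card_nsmul _ _ _ hone
    _ = (b0 : ℝ) ^ 2 * β := by rw [nsmul_eq_mul, hΩc]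

end Pool.Agent.Lib.MP_c03ca8_nt.N
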