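import Pool.Agent.Lib.MP_c03ca8_nt.N.Cont
import Pool.Agent.Lib.MP_c03ca8_nt.N.Sv

/-! The union bound over containers. -/

open Finset Real

namespace Pool.Agent.Lib.MP_c03ca8_nt.N

theorem double {I : Finset ℤ} {C : Finset (Finset ℤ)} {G : ℤ → Finset ℤ} {m R t : ℕ} {β : ℝ}
    (hC : ∀ U ∈ C, U.card ≤ R) (hI : ∀ y ∈ I, ∃ U ∈ C, m ≤ (G y ∩ U).card)
    (hβ : ∀ U ∈ C, ∀ T ⊆ U, T.card = t → ((I.filter fun y => T ⊆ G y).card : ℝ) ≤ β)
    (hβ0 : 0 ≤ β) (ht : t ≤ m) :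
    (I.card : ℝ) * ((m + 1 - t : ℕ) : ℝ) ^ t ≤ C.card * (R : ℝ) ^ t * β := by
  classical
  have h1 : ∀ y ∈ I, (m.choose t : ℝ) ≤
      ∑ U ∈ C, ∑ T ∈ U.powersetCard t, (if T ⊆ G y then (1 : ℝ) else 0) := by
    intro y hy
    obtain ⟨U, hU, hm⟩ := hI y hy
    have h2 : (m.choose t : ℝ) ≤
        ∑ T ∈ U.powersetCard t, (if T ⊆ G y then (1 : ℝ) else 0) := by
      rw [sum_boole]
      have h3 : (G y ∩ U).powersetCard t ⊆ (U.powersetCard t).filter fun T => T ⊆ G y := by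
        intro T hT
        obtain ⟨hT1, hT2⟩ := mem_powersetCard.1 hT
        exact mem_filter.2 ⟨mem_powersetCard.2 ⟨hT1.trans inter_subset_right, hT2⟩,
          hT1.trans inter_subset_left⟩
      have h4 := card_le_card h3
      rw [card_powersetCard] at h4
      exact_mod_cast (Nat.choose_le_choose t hm).trans h4
    refine h2.trans (single_le_sum (f := fun U : Finset ℤ =>
      ∑ T ∈ U.powersetCard t, (if T ⊆ G y then (1 : ℝ) else 0)) (fun V _ => ?_) hU)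
    exact sum_nonneg fun T _ => by split_ifs <;> norm_num
  have h5 : ∀ U ∈ C, ∑ T ∈ U.powersetCard t, ∑ y ∈ I, (if T ⊆ G y then (1 : ℝ) else 0) ≤
      (R.choose t : ℝ) * β := by
    intro U hU
    have h6 : ∀ T ∈ U.powersetCard t, ∑ y ∈ I, (if T ⊆ G y then (1 : ℝ) else 0) ≤ β := by
      intro T hT
      rw [sum_boole]
      exact hβ U hU T (mem_powersetCard.1 hT).1 (mem_powersetCard.1 hT).2
    refine (sum_le_card_nsmul _ _ _ h6).trans ?_
    rw [nsmul_eq_mul, card_powersetCard]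
    refine mul_le_mul_of_nonneg_right ?_ hβ0
    exact_mod_cast Nat.choose_le_choose t (hC U hU)
  have h7 : (I.card : ℝ) * (m.choose t : ℝ) ≤ C.card * ((R.choose t : ℝ) * β) := by
    calc (I.card : ℝ) * (m.choose t : ℝ) = ∑ _y ∈ I, (m.choose t : ℝ) := by
          rw [sum_const, nsmul_eq_mul]
      _ ≤ ∑ y ∈ I, ∑ U ∈ C, ∑ T ∈ U.powersetCard t, (if T ⊆ G y then (1 : ℝ) else 0) :=
          sum_le_sum h1
      _ = ∑ U ∈ C, ∑ T ∈ U.powersetCard t, ∑ y ∈ I, (if T ⊆ G y then (1 : ℝ) else 0) := by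
          rw [sum_comm]
          exact sum_congr rfl fun U _ => sum_comm
      _ ≤ C.card • ((R.choose t : ℝ) * β) := sum_le_card_nsmul _ _ _ h5
      _ = _ := by rw [nsmul_eq_mul]
  have hf : (0 : ℝ) < (t.factorial : ℝ) := by exact_mod_cast t.factorial_pos
  have h8 : ((m + 1 - t : ℕ) : ℝ) ^ t / t.factorial ≤ (m.choose t : ℝ) := by
    exact_mod_cast Nat.pow_le_choose (α := ℝ) t m
  have h9 : (R.choose t : ℝ) ≤ (R : ℝ) ^ t / t.factorial := Nat.choose_le_pow_div t R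
  have _ht := ht
  rw [div_le_iff₀ hf] at h8
  rw [le_div_iff₀ hf] at h9
  calc (I.card : ℝ) * ((m + 1 - t : ℕ) : ℝ) ^ t
      ≤ I.card * ((m.choose t : ℝ) * t.factorial) := by gcongr
    _ = (I.card * (m.choose t : ℝ)) * t.factorial := by ring
    _ ≤ (C.card * ((R.choose t : ℝ) * β)) * t.factorial := by gcongr
    _ = C.card * ((R.choose t : ℝ) * t.factorial) * β := by ring
    _ ≤ C.card * (R : ℝ) ^ t * β := by gcongr

theorem badle_J {L : ℝ} {H w : ℕ} (hL : 2 ≤ L) (hH : (H : ℝ) ≤ L ^ 2) (hw : 512 * log L ≤ w) :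
    255 ^ w * H ≤ 256 ^ w := by
  have h0 : 0 < L := by linarith
  have h1 : 255 * exp (1 / 256) ≤ 256 := by
    have h := add_one_le_exp (-(1 / 256) : ℝ)
    have h' : exp (-(1 / 256) : ℝ) * exp (1 / 256) = 1 := by rw [← exp_add]; simp
    nlinarith [exp_pos (1 / 256 : ℝ)]
  have h2 : L ^ 2 ≤ exp (1 / 256) ^ w := by
    rw [← exp_nat_mul, ← exp_log (pow_pos h0 2), log_pow]
    exact exp_le_exp.2 (by push_cast; linarith)
  have h3 : (255 : ℝ) ^ w * H ≤ 256 ^ w := by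
    calc (255 : ℝ) ^ w * H ≤ 255 ^ w * exp (1 / 256) ^ w :=
          mul_le_mul_of_nonneg_left (hH.trans h2) (by positivity)
      _ = (255 * exp (1 / 256)) ^ w := (mul_pow _ _ _).symm
      _ ≤ 256 ^ w := pow_le_pow_left₀ (by positivity) h1 _
  exact_mod_cast h3

theorem badle_C {L : ℝ} {H w s c : ℕ} (hL : 2 ≤ L) (hH : (H : ℝ) ≤ L ^ 2)
    (hw : 512 * log L ≤ w) (hw2 : 2048 ≤ w) (hc : c ≤ (H + 1) ^ (1025 * s * w)) :
    (c : ℝ) ≤ 3 ^ (s * w ^ 3) := by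
  have h0 : 0 < L := by linarith
  have hl : 0 ≤ log L := log_nonneg (by linarith)
  have h1 : (H : ℝ) + 1 ≤ exp 1 ^ w := by
    have h3 : (H : ℝ) + 1 ≤ L ^ 3 := by nlinarith
    refine h3.trans ?_
    rw [← exp_nat_mul, ← exp_log (pow_pos h0 3), log_pow]
    exact exp_le_exp.2 (by push_cast; linarith)
  have h2 : exp 1 ≤ 3 := (exp_one_lt_d9.trans (by norm_num)).le
  have h4 : (H : ℝ) + 1 ≤ 3 ^ w := h1.trans (pow_le_pow_left₀ (exp_pos 1).le h2 _)
  have h5 : (c : ℝ) ≤ ((H : ℝ) + 1) ^ (1025 * s * w) := by exact_mod_cast hc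
  refine h5.trans ((pow_le_pow_left₀ (by positivity) h4 _).trans ?_)
  rw [← pow_mul]
  refine pow_le_pow_right₀ (by norm_num) ?_
  calc w * (1025 * s * w) = s * w ^ 2 * 1025 := by ring
    _ ≤ s * w ^ 2 * w := Nat.mul_le_mul_left _ (by omega)
    _ = s * w ^ 3 := by ring

theorem badle_pow {s t : ℕ} (hs : 1 ≤ s) (ht : 5 * s ≤ t) : 3 * s ^ 3 ≤ 2 ^ t := by
  have h1 : s ≤ 2 ^ s := Nat.lt_two_pow_self.le
  calc 3 * s ^ 3 ≤ 2 ^ (2 * s) * (2 ^ s) ^ 3 :=
        Nat.mul_le_mul ((by norm_num : 3 ≤ 2 ^ 2).trans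
          (Nat.pow_le_pow_right (by norm_num) (by omega))) (Nat.pow_le_pow_left h1 3)
    _ = 2 ^ (5 * s) := by rw [← pow_mul, ← pow_add]; ring_nf
    _ ≤ 2 ^ t := Nat.pow_le_pow_right (by norm_num) ht

theorem badle_fin {x M c R ρ N : ℝ} {t : ℕ} (hM : 0 < M) (hR : 0 ≤ R) (hρ : 0 ≤ ρ)
    (hN : 0 ≤ N) (hc : c ≤ 3 ^ t) (h : x * M ^ t ≤ c * R ^ t * (3 * N * ρ ^ t))
    (hr : 6 * R * ρ ≤ M) : x * 2 ^ t ≤ 3 * N := by
  have h1 : (6 * R * ρ) ^ t ≤ M ^ t := pow_le_pow_left₀ (by positivity) hr _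
  have h2 : x * M ^ t ≤ 3 ^ t * R ^ t * (3 * N * ρ ^ t) :=
    h.trans (mul_le_mul_of_nonneg_right (mul_le_mul_of_nonneg_right hc (by positivity))
      (by positivity))
  have h3 : x * 2 ^ t * M ^ t ≤ 3 * N * M ^ t := by
    calc x * 2 ^ t * M ^ t = 2 ^ t * (x * M ^ t) := by ring
      _ ≤ 2 ^ t * (3 ^ t * R ^ t * (3 * N * ρ ^ t)) :=
          mul_le_mul_of_nonneg_left h2 (by positivity)
      _ = 3 * N * (6 * R * ρ) ^ t := by
          rw [show (6 : ℝ) = 2 * 3 by norm_num, mul_pow, mul_pow, mul_pow]; ring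
      _ ≤ 3 * N * M ^ t := mul_le_mul_of_nonneg_left h1 (by positivity)
  exact le_of_mul_le_mul_right h3 (pow_pos hM _)

theorem bad_le : ∃ C : ℝ, 1 ≤ C ∧ ∀ (L : ℝ) (v w N : ℕ) (y0 : ℤ) (G : ℤ → Finset ℤ),
    2048 ≤ w → w ^ 15 ≤ v → (v : ℝ) ^ 2 ≤ L → C * log L ≤ w → exp (4 * L) ≤ N →
    ∀ I ⊆ Ioc y0 (y0 + N),
      (∀ y ∈ I, G y ⊆ Ico 0 (((v * w ^ 5) ^ 3 : ℕ) : ℤ) ∧ WS (G y) ∧
        w ^ 8 * (v * w ^ 5) ≤ (G y).card ∧
        ∀ h ∈ G y, exp L < ((y + h : ℤ) : ℝ) ∧ Prime (y + h)) →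
      I.card * (v * w ^ 5) ^ 3 ≤ N := by
  obtain ⟨C0, hC0, hs2⟩ := sieve2
  refine ⟨max C0 512, hC0.trans (le_max_left _ _), ?_⟩
  intro L v w N y0 G hw hv hL hCw hN I hI hG
  have hw1 : 1 ≤ w := by omega
  have hp : ∀ a b : ℕ, a ≤ b → w ^ a ≤ w ^ b := fun a b h => Nat.pow_le_pow_right hw1 h
  have hw15 : w ≤ w ^ 15 := by simpa using hp 1 15 (by norm_num)
  have hv2 : 2048 ≤ v := by omega
  have hvR : (2048 : ℝ) ≤ v := by exact_mod_cast hv2
  have hwR : (2048 : ℝ) ≤ w := by exact_mod_cast hw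
  have hL2 : 2 ≤ L := by nlinarith
  have hl : 0 ≤ log L := log_nonneg (by linarith)
  have hw0 : C0 * log L ≤ w := (mul_le_mul_of_nonneg_right (le_max_left _ _) hl).trans hCw
  have hw5 : 512 * log L ≤ w := (mul_le_mul_of_nonneg_right (le_max_right _ _) hl).trans hCw
  obtain ⟨s, hs⟩ : ∃ s, s = v * w ^ 5 := ⟨_, rfl⟩
  rw [← hs] at hG ⊢
  have hs1 : 2048 ≤ s := by
    rw [hs]; exact hv2.trans (Nat.le_mul_of_pos_right _ (by positivity))
  have hH : ((s ^ 3 : ℕ) : ℝ) ≤ L ^ 2 := by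
    have h1 : s ^ 3 ≤ (v ^ 2) ^ 2 := by
      calc s ^ 3 = v ^ 3 * w ^ 15 := by rw [hs]; ring
        _ ≤ v ^ 3 * v := Nat.mul_le_mul_left _ hv
        _ = (v ^ 2) ^ 2 := by ring
    have h2 : ((s ^ 3 : ℕ) : ℝ) ≤ ((v : ℝ) ^ 2) ^ 2 := by exact_mod_cast h1
    exact h2.trans (pow_le_pow_left₀ (by positivity) hL 2)
  have hk : 32 ≤ w ^ 8 := le_trans (by omega) (by simpa using hp 1 8 (by norm_num) : w ≤ w ^ 8)
  have hks : w ^ 8 ≤ s := by
    rw [hs]
    exact ((hp 8 15 (by norm_num)).trans hv).trans (Nat.le_mul_of_pos_right _ (by positivity))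
  obtain ⟨C, hc, hCU, hCA⟩ := cont hk hks (badle_J hL2 hH hw5)
  have hm : 2 * (512 * s * w + s * w ^ 3) ≤ w ^ 8 * s := by
    have h1 : w ≤ w ^ 7 := by simpa using hp 1 7 (by norm_num)
    have h2 : w ^ 3 ≤ w ^ 7 := hp 3 7 (by norm_num)
    have h3 : 2048 * w ^ 7 ≤ w ^ 8 := by
      rw [show w ^ 8 = w * w ^ 7 by ring]; exact Nat.mul_le_mul_right _ hw
    calc 2 * (512 * s * w + s * w ^ 3) = (1024 * w + 2 * w ^ 3) * s := by ring
      _ ≤ w ^ 8 * s := Nat.mul_le_mul_right _ (by omega)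
  have htL : 2 * ((s * w ^ 3 : ℕ) : ℝ) * (w : ℝ) ^ 2 ≤ L := by
    have h1 : 2 * w ^ 10 ≤ v := by
      refine le_trans ?_ ((hp 11 15 (by norm_num)).trans hv)
      rw [show w ^ 11 = w * w ^ 10 by ring]; exact Nat.mul_le_mul_right _ (by omega)
    have h2 : 2 * (s * w ^ 3) * w ^ 2 ≤ v ^ 2 := by
      calc 2 * (s * w ^ 3) * w ^ 2 = v * (2 * w ^ 10) := by rw [hs]; ring
        _ ≤ v * v := Nat.mul_le_mul_left _ h1
        _ = v ^ 2 := by ring
    exact le_trans (by exact_mod_cast h2) hL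
  have ht1 : 1 ≤ s * w ^ 3 := Nat.mul_pos (by omega) (by positivity)
  have hd := double (I := I) (C := C) (G := G) (m := w ^ 8 * s - 512 * s * w)
    (R := 32 * v ^ 2 * w ^ 2) (t := s * w ^ 3)
    (β := 3 * N * (2 * ((s * w ^ 3 : ℕ) : ℝ) * (w : ℝ) ^ 2 / L) ^ (s * w ^ 3))
    (fun U hU => by
      have h := (hCU U hU).2
      rw [show 32 * s ^ 2 = w ^ 8 * (32 * v ^ 2 * w ^ 2) by rw [hs]; ring] at h
      exact Nat.le_of_mul_le_mul_left h (by positivity))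
    (fun y hy => by
      obtain ⟨h1, h2, h3, -⟩ := hG y hy
      obtain ⟨A, hA, hAc⟩ := exists_subset_card_eq h3
      obtain ⟨U, hU, h⟩ := hCA A (hA.trans h1) (h2.mono hA) hAc
      have h4 : (A ∩ U).card ≤ (G y ∩ U).card := card_le_card (inter_subset_inter_right hA)
      exact ⟨U, hU, by omega⟩)
    (fun U hU T hT hTc => by
      have h := hs2 L w (s ^ 3) N T y0 (hT.trans (hCU U hU).1) (by omega)
        (le_trans (by omega) (Nat.le_self_pow (by norm_num) s)) hH hL2 hw0 (by rw [hTc]; exact htL)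
        hN (I.filter fun y => T ⊆ G y) ((filter_subset _ _).trans hI) (fun n hn h hh =>
          (hG n (mem_filter.1 hn).1).2.2.2 h ((mem_filter.1 hn).2 hh))
      rwa [hTc] at h)
    (by positivity) (by omega)
  have hM : w ^ 8 * s ≤ 2 * (w ^ 8 * s - 512 * s * w + 1 - s * w ^ 3) := by omega
  obtain ⟨M, hMe⟩ : ∃ M, M = w ^ 8 * s - 512 * s * w + 1 - s * w ^ 3 := ⟨_, rfl⟩
  rw [← hMe] at hd hM
  have hMR : (w : ℝ) ^ 8 * s ≤ 2 * M := by exact_mod_cast hM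
  have hsR : (0 : ℝ) < s := by exact_mod_cast (by omega : 0 < s)
  have hws : 0 < (w : ℝ) ^ 8 * s := by positivity
  have hf := badle_fin (by linarith) (Nat.cast_nonneg _) (by positivity)
    (Nat.cast_nonneg _) (badle_C hL2 hH hw5 hw hc) hd (by
      rw [← mul_div_assoc, div_le_iff₀ (by linarith)]
      push_cast
      have h1 : (0 : ℝ) ≤ w ^ 7 * s := by positivity
      calc 6 * (32 * (v : ℝ) ^ 2 * w ^ 2) * (2 * (s * w ^ 3) * w ^ 2)
          = 384 * (w ^ 7 * s) * v ^ 2 := by ring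
        _ ≤ M * L := by
          refine mul_le_mul ?_ hL (by positivity) (Nat.cast_nonneg _)
          have h2 : (w : ℝ) ^ 8 * s = w * (w ^ 7 * s) := by ring
          nlinarith)
  have h3 : 3 * s ^ 3 ≤ 2 ^ (s * w ^ 3) := by
    refine badle_pow (by omega) ?_
    rw [mul_comm 5 s]
    exact Nat.mul_le_mul_left _ (le_trans (by omega) (Nat.le_self_pow (by norm_num) w))
  have h4 : I.card * 2 ^ (s * w ^ 3) ≤ 3 * N := by exact_mod_cast hf
  have h5 := Nat.mul_le_mul_left I.card h3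
  have h6 : I.card * (3 * s ^ 3) = 3 * (I.card * s ^ 3) := by ring
  omega

theorem core1_ws {A : Finset ℤ} {H : ℤ} (y : ℤ)
    (h : ∀ p a b : ℤ, 0 < a → a < b → b ≤ H → p ∈ A → p + a ∈ A → p + b ∈ A → p + a + b ∉ A) :
    WS ((Ico 0 H).filter fun x => y + x ∈ A) := by
  have key : ∀ a b c d : ℤ, a ∈ (Ico 0 H).filter (fun x => y + x ∈ A) →
      b ∈ (Ico 0 H).filter (fun x => y + x ∈ A) → c ∈ (Ico 0 H).filter (fun x => y + x ∈ A) →
      d ∈ (Ico 0 H).filter (fun x => y + x ∈ A) → a + d = b + c → a < b → b < c → False := by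
    intro a b c d ha hb hc hd e h1 h2
    rw [mem_filter, mem_Ico] at ha hb hc hd
    refine h (y + a) (b - a) (c - a) (by omega) (by omega) (by omega) ha.2 ?_ ?_ ?_
    · rw [show y + a + (b - a) = y + b by ring]; exact hb.2
    · rw [show y + a + (c - a) = y + c by ring]; exact hc.2
    · rw [show y + a + (b - a) + (c - a) = y + d by omega]; exact hd.2
  intro a ha b hb c hc d hd e
  by_contra hn
  simp only [not_or] at hn
  obtain ⟨h1, h2, h3, h4⟩ := hn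
  rcases lt_or_gt_of_ne h3 with h3 | h3 <;> rcases lt_or_gt_of_ne h4 with h4 | h4
  · rcases lt_or_gt_of_ne h1 with h1 | h1
    · exact key a b c d ha hb hc hd e h1 h4
    · exact key b a d c hb ha hd hc e.symm h1 h3
  · rcases lt_or_gt_of_ne h2 with h2 | h2
    · exact key a c b d ha hc hb hd (by omega) h2 h4
    · exact key c a d b hc ha hd hb (by omega) h2 h3
  · rcases lt_or_gt_of_ne h2 with h2 | h2
    · exact key b d a c hb hd ha hc (by omega) (by omega) h3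
    · exact key d b c a hd hb hc ha (by omega) (by omega) h4
  · rcases lt_or_gt_of_ne h1 with h1 | h1
    · exact key c d a b hc hd ha hb (by omega) (by omega) h3
    · exact key d c b a hd hc hb ha (by omega) (by omega) h4

theorem core1_count {A : Finset ℤ} {X : ℤ} {Y : ℕ} (H : ℕ) (hA : A ⊆ Ioc X (X + Y)) :
    H * A.card ≤ ∑ y ∈ Ioc (X - H) (X - H + (Y + H : ℕ)),
      ((Ico 0 (H : ℤ)).filter fun x => y + x ∈ A).card := by
  simp only [card_filter]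
  rw [sum_comm]
  refine le_trans (le_of_eq ?_) (card_nsmul_le_sum _ _ A.card fun x hx => ?_)
  · simp
  · rw [← card_filter]
    rw [mem_Ico] at hx
    refine card_le_card_of_injOn (fun p => p - x) (fun p hp => ?_) fun p _ q _ e => ?_
    · have h1 := mem_Ioc.mp (hA hp)
      refine mem_coe.mpr (mem_filter.mpr ⟨mem_Ioc.mpr ?_, ?_⟩)
      · push_cast
        constructor <;> omega
      · simpa using hp
    · simpa using e

theorem core1 : ∃ C : ℝ, 1 ≤ C ∧ ∀ (L : ℝ) (v w Y : ℕ) (X : ℤ),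
    2048 ≤ w → w ^ 15 ≤ v → (v : ℝ) ^ 2 ≤ L → C * log L ≤ w → exp L ≤ X → exp (4 * L) ≤ Y →
    ∀ A ⊆ Ioc X (X + Y), (∀ p ∈ A, Prime p) →
      (∀ p a b : ℤ, 0 < a → a < b → b ≤ (((v * w ^ 5) ^ 3 : ℕ) : ℤ) → p ∈ A → p + a ∈ A →
        p + b ∈ A → p + a + b ∉ A) →
      A.card * (v ^ 2 * w ^ 2) ≤ 2 * (Y + (v * w ^ 5) ^ 3) := by
  obtain ⟨C, hC, hb⟩ := bad_le
  refine ⟨C, hC, fun L v w Y X hw hv hL hCw hX hY A hA hp hpar => ?_⟩
  set s := v * w ^ 5 with hs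
  set H := s ^ 3 with hH
  have hw0 : 0 < w := by omega
  have hv0 : 0 < v := (pow_pos hw0 15).trans_le hv
  have hs0 : 0 < w ^ 8 * s := by positivity
  let G : ℤ → Finset ℤ := fun y => (Ico 0 (H : ℤ)).filter fun x => y + x ∈ A
  set J := Ioc (X - H) (X - H + (Y + H : ℕ)) with hJ
  have hI := hb L v w (Y + H) (X - H) G hw hv hL hCw
    (hY.trans (by exact_mod_cast Nat.le_add_right Y H))
    (J.filter fun y => w ^ 8 * s ≤ (G y).card) (filter_subset _ _) fun y hy =>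
      ⟨filter_subset _ _, core1_ws y hpar, (mem_filter.mp hy).2, fun x hx => by
        have h1 := (mem_filter.mp hx).2
        exact ⟨hX.trans_lt (by exact_mod_cast (mem_Ioc.mp (hA h1)).1), hp _ h1⟩⟩
  have hJc : J.card = Y + H := by
    rw [hJ, Int.card_Ioc]
    omega
  have h1 : ∑ y ∈ J, (G y).card ≤
      ∑ y ∈ J, (w ^ 8 * s + if w ^ 8 * s ≤ (G y).card then H else 0) := by
    refine sum_le_sum fun y _ => ?_
    split_ifs with h
    · refine le_add_left ((card_filter_le _ _).trans ?_)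
      simp
    · omega
  rw [sum_add_distrib, sum_const, ← sum_filter, sum_const, hJc, smul_eq_mul, smul_eq_mul] at h1
  have h2 := ((core1_count H hA).trans h1).trans (Nat.add_le_add_left hI _)
  have h3 : Y + H ≤ (Y + H) * (w ^ 8 * s) := Nat.le_mul_of_pos_right _ hs0
  refine Nat.le_of_mul_le_mul_right ?_ hs0
  calc A.card * (v ^ 2 * w ^ 2) * (w ^ 8 * s) = H * A.card := by rw [hH, hs]; ring
    _ ≤ (Y + H) * (w ^ 8 * s) + (Y + H) * (w ^ 8 * s) := h2.trans (Nat.add_le_add_left h3 _)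
    _ = 2 * (Y + H) * (w ^ 8 * s) := by ring

end Pool.Agent.Lib.MP_c03ca8_nt.N
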